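import Pool.Agent.H60.GU.Defs

/-!
# GoodRep: every class has a representative whose middle part is the chosen representative

Take `F₀` with `cls F₀ = c`, `R` the chosen representative of `cls (F₀.comap (mid m))` (so
`cls R = cls (F₀.comap (mid m))`, `rep_spec`) and `e : R ≃g F₀.comap (mid m)`.  Let `σ` be the
permutation of `Fin (m+2)` with `σ (mid j) = mid (e j)`, fixing `0` and `last`; `F := F₀.comap σ`.
Then `F.comap (mid m) = F₀.comap (mid ∘ e) = R` and `cls F = c`.
(`σ`: e.g. `Equiv.ofBijective` of the function given by cases, or `Equiv.Perm.extendDomain`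
of `e` along `Fin m ≃ {x // x ≠ 0 ∧ x ≠ last}`, or `Equiv.Perm.viaFintypeEmbedding e.toEquiv`
with the embedding `mid m`: `Equiv.Perm.viaFintypeEmbedding_apply_image` is then exactly
`σ (mid j) = mid (e j)`.)  About 50 lines.
-/

namespace Pool.Agent.H60.GU

/-- The chosen representative of a class. -/
noncomputable def rep {n : ℕ} (c : Cls n) : SimpleGraph (Fin n) := (cls_surj c).choose

theorem rep_spec {n : ℕ} (c : Cls n) : cls (rep c) = c := (cls_surj c).choose_spec

theorem good_rep {m : ℕ} (c : Cls (m + 2)) :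
    ∃ F, cls F = c ∧ F.comap (mid m) = rep (cls (F.comap (mid m))) := by
  classical
  obtain ⟨F₀, hF₀⟩ := cls_surj c
  obtain ⟨e⟩ := cls_eq.1 (rep_spec (cls (F₀.comap (mid m))))
  have hinj : Function.Injective (mid m) := by
    intro a b h
    unfold mid at h
    exact Fin.succ_injective _ (Fin.castSucc_injective _ h)
  let ι : Fin m ↪ Fin (m + 2) := ⟨mid m, hinj⟩
  let σ : Equiv.Perm (Fin (m + 2)) := Equiv.Perm.viaFintypeEmbedding e.toEquiv ι
  have hσ : ∀ j, σ (mid m j) = mid m (e j) := by
    intro j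
    exact Equiv.Perm.viaFintypeEmbedding_apply_image e.toEquiv ι j
  have hmid : (F₀.comap σ).comap (mid m) = rep (cls (F₀.comap (mid m))) := by
    ext a b
    simp only [SimpleGraph.comap_adj]
    rw [hσ, hσ]
    exact e.map_rel_iff
  refine ⟨F₀.comap σ, ?_, ?_⟩
  · rw [← hF₀]
    exact cls_eq.2 ⟨⟨σ, Iff.rfl⟩⟩
  · rw [hmid, rep_spec]

end Pool.Agent.H60.GU
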