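import Pool.Agent.H60.GU.Lower

/-!
# Split: the decks of the asymmetric even graphs are disjoint

The map `AE (n+1) × Fin (n+1) ⊕ Left n → Cls n`, `(c, v) ↦ cls (F_c - v)` with a representative
`F_c` (even and asymmetric), identity on `Left n`, is injective: if `F_c - v ≃g F_c' - v'`, then
`deck_inj` gives `ψ : F_c ≃g F_c'` with `ψ v = v'`, so `c = c'`, `ψ` is an automorphism of the
asymmetric `F_c` and `v' = ψ v = v`; the images of the two parts are disjoint by the definition of
`Left`.  `Nat.card_le_card_of_injective`, `Nat.card_sum`, `Nat.card_prod`.  About 50 lines.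
-/

namespace Pool.Agent.H60.GU

theorem split (n : ℕ) : (n + 1) * Nat.card (AE (n + 1)) + Nat.card (Left n) ≤ numCls n := by
  classical
  haveI : Finite (AE (n + 1)) := by unfold AE; infer_instance
  haveI : Finite (Left n) := by unfold Left; infer_instance
  choose F hFc hFe hFa using fun c : AE (n + 1) => c.2
  let g : (AE (n + 1) × Fin (n + 1)) ⊕ Left n → Cls n :=
    Sum.elim (fun x => cls ((F x.1).comap (Fin.succAbove x.2))) (fun c => c.1)
  have hg : Function.Injective g := by
    rintro (⟨c, v⟩ | c) (⟨c', v'⟩ | c') h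
    · have h1 : cls ((F c).comap (Fin.succAbove v)) = cls ((F c').comap (Fin.succAbove v')) := h
      obtain ⟨e⟩ := cls_eq.mp h1
      obtain ⟨ψ, hψ⟩ := deck_inj (hFe c) (hFe c') e
      have h2 : c = c' := by
        apply Subtype.ext
        rw [← hFc c, ← hFc c']
        exact cls_eq.mpr ⟨ψ⟩
      subst h2
      have h3 := hFa c ψ v
      rw [hψ] at h3
      rw [h3]
    · exfalso
      have h1 : cls ((F c).comap (Fin.succAbove v)) = c'.1 := h
      exact c'.2 ⟨F c, hFe c, hFa c, v, h1⟩
    · exfalso
      have h1 : c.1 = cls ((F c').comap (Fin.succAbove v')) := h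
      exact c.2 ⟨F c', hFe c', hFa c', v', h1.symm⟩
    · have h1 : c.1 = c'.1 := h
      rw [Subtype.ext h1]
  have h := Nat.card_le_card_of_injective g hg
  rw [Nat.card_sum, Nat.card_prod, Nat.card_eq_fintype_card (α := Fin (n + 1)), Fintype.card_fin] at h
  unfold numCls
  linarith [mul_comm (n + 1) (Nat.card (AE (n + 1)))]

end Pool.Agent.H60.GU
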