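import Pool.Agent.H60.GU.NatWalk
import Pool.Agent.H60.GU.Split
import Pool.Agent.H60.GU.GoodRep

/-!
# Assembly: a short closed walk through all isomorphism classes

For every `a : AE (m+2)` take the good representative `F_a` (`good_rep`; it is even and asymmetric,
being isomorphic to an even asymmetric graph: `IsEven.iso`, `Asym.iso`) and its closed walk
`D_a` at the state `rep h_a`, `h_a = cls (F_a.comap (mid m)) : Cls m`, of length `m+2`
(`deck_walk`).  For every `h : Cls m` concatenate (`Walk.concat`, over the subtype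
`{a // h_a = h}`) the `D_a` with `h_a = h`, and put `conn s (rep h)` before and `conn (rep h) s`
after, where `s` is a fixed state (`⊥`): a closed walk at `s` of length
`2m + (m+2) #{a // h_a = h}`.  For every `c : Left (m+1)` and `W = rep c` take
`conn s (pre W) ++ [W] ++ conn (suf W) s`: a closed walk of length `2m+1`.
Concatenate everything (`Walk.concat` over `Cls m ⊕ Left (m+1)`).
Length: `2m · numCls m + (m+2) · #AE + (2m+1) · #Left ≤ numCls (m+1) + 2m numCls m + 2m #Left` by
`split (m+1)` (`∑_h #{a // h_a = h} = #AE`: `Fintype.card_sigma`/`Finset.card_eq_sum_card_fiberwise`).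
Every class `c : Cls (m+1)` is in `Left` or is `cls (F.comap v.succAbove)` for an asymmetric even
`F`; then with `a = ⟨cls F, _⟩`, `φ : F ≃g F_a`, `cls_delete` gives `c = cls (F_a - φ v)`, and the
walk `D_a` has a window isomorphic to `F_a - φ v`.
About 120 lines.
-/

namespace Pool.Agent.H60.GU

private instance finite_AE_asm (k : ℕ) : Finite (AE k) :=
  inferInstanceAs (Finite {c : Cls k // ∃ F, cls F = c ∧ IsEven F ∧ Asym F})

private instance finite_Left_asm (n : ℕ) : Finite (Left n) :=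
  inferInstanceAs (Finite {c : Cls n // ¬ ∃ F : SimpleGraph (Fin (n + 1)),
    IsEven F ∧ Asym F ∧ ∃ v, cls (F.comap (Fin.succAbove v)) = c})

/-- The closed walk of an asymmetric even class. -/
private theorem deckA_asm {m : ℕ} (a : AE (m + 2)) : ∃ (h : Cls m) (F : SimpleGraph (Fin (m + 2)))
    (l : List (SimpleGraph (Fin (m + 1)))), cls F = a.1 ∧ l.length = m + 2 ∧
      Walk (rep h) l (rep h) ∧ ∀ v : Fin (m + 2), ∃ W ∈ l, Nonempty (W ≃g F.comap v.succAbove) := by
  obtain ⟨F, hF, hr⟩ := good_rep a.1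
  obtain ⟨l, hl, hw, hv⟩ := deck_walk F
  refine ⟨cls (F.comap (mid m)), F, l, hF, hl, ?_, hv⟩
  rw [← hr]
  exact hw

/-- The walk of the class `h` of states. -/
private theorem walkH_asm {m : ℕ} (s : SimpleGraph (Fin m)) (H : AE (m + 2) → Cls m)
    (D : AE (m + 2) → List (SimpleGraph (Fin (m + 1)))) (hlen : ∀ a, (D a).length = m + 2)
    (hw : ∀ a, Walk (rep (H a)) (D a) (rep (H a))) (h : Cls m) :
    ∃ l, Walk s l s ∧ (∀ a, H a = h → ∀ W ∈ D a, W ∈ l) ∧
      l.length = 2 * m + (m + 2) * Nat.card {a // H a = h} := by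
  classical
  let _ : Fintype {a // H a = h} := Fintype.ofFinite _
  obtain ⟨l, h1, h2, h3⟩ := Walk.concat (s := rep h) (fun i : {a // H a = h} => D i.1) (by
    rintro ⟨a, rfl⟩
    exact hw a)
  obtain ⟨l1, hl1, hw1⟩ := conn s (rep h)
  obtain ⟨l2, hl2, hw2⟩ := conn (rep h) s
  refine ⟨l1 ++ (l ++ l2), hw1.append (h1.append hw2), ?_, ?_⟩
  · intro a ha W hW
    rw [List.mem_append, List.mem_append]
    exact Or.inr (Or.inl (h2 ⟨a, ha⟩ W hW))
  · rw [List.length_append, List.length_append, hl1, hl2, h3]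
    simp only [hlen]
    rw [Finset.sum_const, Finset.card_univ, ← Nat.card_eq_fintype_card, smul_eq_mul]
    ring

theorem assembly (m : ℕ) : ∃ (s : SimpleGraph (Fin m)) (l : List (SimpleGraph (Fin (m + 1)))),
    Walk s l s ∧ (∀ c : Cls (m + 1), ∃ W ∈ l, cls W = c) ∧
      l.length ≤ numCls (m + 1) + 2 * m * numCls m + 2 * m * Nat.card (Left (m + 1)) := by
  classical
  choose H F D hF hlen hw hv using fun a : AE (m + 2) => deckA_asm a
  let s : SimpleGraph (Fin m) := ⊥
  choose E hE1 hE2 hE3 using walkH_asm s H D hlen hw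
  have hleft : ∀ c : Left (m + 1), ∃ l : List (SimpleGraph (Fin (m + 1))), Walk s l s ∧
      rep c.1 ∈ l ∧ l.length = 2 * m + 1 := by
    intro c
    obtain ⟨l1, hl1, hw1⟩ := conn s (pre (rep c.1))
    obtain ⟨l2, hl2, hw2⟩ := conn (suf (rep c.1)) s
    refine ⟨l1 ++ ([rep c.1] ++ l2), hw1.append ((Walk.single _).append hw2), ?_, ?_⟩
    · simp
    · rw [List.length_append, List.length_append, hl1, hl2, List.length_singleton]
      ring
  choose G hG1 hG2 hG3 using hleft
  let _ : Fintype (Cls m) := Fintype.ofFinite _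
  let _ : Fintype (Left (m + 1)) := Fintype.ofFinite _
  obtain ⟨l, hl1, hl2, hl3⟩ := Walk.concat (s := s) (ι := Cls m ⊕ Left (m + 1)) (Sum.elim E G) (by
    rintro (h | c)
    · exact hE1 h
    · exact hG1 c)
  refine ⟨s, l, hl1, ?_, ?_⟩
  · intro c
    by_cases hc : ∃ F : SimpleGraph (Fin (m + 1 + 1)),
        IsEven F ∧ Asym F ∧ ∃ v, cls (F.comap (Fin.succAbove v)) = c
    · obtain ⟨F0, he, has, v, hvc⟩ := hc
      let a : AE (m + 2) := ⟨cls F0, F0, rfl, he, has⟩
      have h1 : cls F0 = cls (F a) := (hF a).symm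
      obtain ⟨φ⟩ := cls_eq.1 h1
      obtain ⟨W, hW, ⟨e⟩⟩ := hv a (φ v)
      refine ⟨W, hl2 (Sum.inl (H a)) W (hE2 (H a) a rfl W hW), ?_⟩
      rw [← hvc, cls_delete φ v]
      exact cls_eq.2 ⟨e⟩
    · exact ⟨rep c, hl2 (Sum.inr ⟨c, hc⟩) _ (hG2 ⟨c, hc⟩), rep_spec c⟩
  · have h1 : ∑ h : Cls m, Nat.card {a // H a = h} = Nat.card (AE (m + 2)) := by
      rw [← Nat.card_congr (Equiv.sigmaFiberEquiv H), Nat.card_sigma]
    have h2 := split (m + 1)
    have h3 : l.length = 2 * m * numCls m + (m + 2) * Nat.card (AE (m + 2)) +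
        Nat.card (Left (m + 1)) * (2 * m + 1) := by
      rw [hl3, Fintype.sum_sum_type]
      simp only [Sum.elim_inl, Sum.elim_inr, hE3, hG3]
      rw [Finset.sum_add_distrib, ← Finset.mul_sum (Finset.univ : Finset (Cls m))
        (fun h => Nat.card {a // H a = h}) (m + 2), h1, Finset.sum_const, Finset.sum_const,
        Finset.card_univ, Finset.card_univ, ← Nat.card_eq_fintype_card,
        ← Nat.card_eq_fintype_card, smul_eq_mul, smul_eq_mul, numCls, mul_comm (Nat.card (Cls m))]
    rw [h3]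
    have h4 : (m + 1 + 1) * Nat.card (AE (m + 1 + 1)) = (m + 2) * Nat.card (AE (m + 2)) := rfl
    rw [h4] at h2
    nlinarith

end Pool.Agent.H60.GU
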