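import Pool.Agent.H60.GU.Defs

/-!
# Burn: Burnside's lemma for isomorphism classes of graphs with an invariant property

`Equiv.Perm (Fin k)` acts on `{F : SimpleGraph (Fin k) // P F}` by `γ • F = F.comap γ.symm`
(equivalently `F.map γ`), which is isomorphic to `F`.  The fixed points of `γ` are the `F` with
`P F ∧ Inv γ F`; two graphs are in the same orbit iff they are isomorphic, so the orbits are in
bijection with `{c : Cls k // ∃ F, cls F = c ∧ P F}`.  Then
`MulAction.sum_card_fixedBy_eq_card_orbits_mul_card_group` and `Fintype.card_perm`.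
About 90 lines.
-/

namespace Pool.Agent.H60.GU

/-- The action of the permutations on the graphs with an invariant property. -/
private def bAct {k : ℕ} (P : SimpleGraph (Fin k) → Prop)
    (hP : ∀ F F' : SimpleGraph (Fin k), Nonempty (F ≃g F') → P F → P F') :
    MulAction (Equiv.Perm (Fin k)) {F : SimpleGraph (Fin k) // P F} where
  smul γ F := ⟨F.1.comap γ.symm, hP _ _ ⟨(SimpleGraph.Iso.comap γ.symm F.1).symm⟩ F.2⟩
  one_smul F := by
    apply Subtype.ext
    ext a b
    rfl
  mul_smul γ δ F := by
    apply Subtype.ext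
    ext a b
    rfl

theorem burn {k : ℕ} (P : SimpleGraph (Fin k) → Prop)
    (hP : ∀ F F' : SimpleGraph (Fin k), Nonempty (F ≃g F') → P F → P F') :
    k.factorial * numP P =
      ∑ γ : Equiv.Perm (Fin k), Nat.card {F : SimpleGraph (Fin k) // P F ∧ Inv γ F} := by
  classical
  letI := bAct P hP
  haveI : Finite {F : SimpleGraph (Fin k) // P F} := inferInstance
  letI : Fintype {F : SimpleGraph (Fin k) // P F} := Fintype.ofFinite _
  letI : Fintype (MulAction.orbitRel.Quotient (Equiv.Perm (Fin k))
      {F : SimpleGraph (Fin k) // P F}) := Fintype.ofFinite _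
  letI : ∀ γ : Equiv.Perm (Fin k),
      Fintype (MulAction.fixedBy {F : SimpleGraph (Fin k) // P F} γ) :=
    fun γ => Fintype.ofFinite _
  have hB := MulAction.sum_card_fixedBy_eq_card_orbits_mul_card_group (Equiv.Perm (Fin k))
    {F : SimpleGraph (Fin k) // P F}
  have hadj : ∀ (γ : Equiv.Perm (Fin k)) (F : {F : SimpleGraph (Fin k) // P F}) (a b : Fin k),
      (γ • F).1.Adj a b ↔ F.1.Adj (γ.symm a) (γ.symm b) := fun γ F a b => Iff.rfl
  -- fixed points
  have hfix : ∀ γ : Equiv.Perm (Fin k),
      Fintype.card (MulAction.fixedBy {F : SimpleGraph (Fin k) // P F} γ) =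
        Nat.card {F : SimpleGraph (Fin k) // P F ∧ Inv γ F} := by
    intro γ
    rw [← Nat.card_eq_fintype_card]
    refine Nat.card_congr ⟨fun F => ⟨F.1.1, F.1.2, ?_⟩, fun F => ⟨⟨F.1, F.2.1⟩, ?_⟩,
      fun F => rfl, fun F => rfl⟩
    · intro a b
      have h := F.2
      rw [MulAction.mem_fixedBy] at h
      have h2 := hadj γ F.1 (γ a) (γ b)
      rw [h] at h2
      simpa using h2
    · rw [MulAction.mem_fixedBy]
      apply Subtype.ext
      ext a b
      rw [hadj]
      have h := F.2.2 (γ.symm a) (γ.symm b)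
      simpa using h.symm
  -- orbits
  have horb : Fintype.card (MulAction.orbitRel.Quotient (Equiv.Perm (Fin k))
      {F : SimpleGraph (Fin k) // P F}) = numP P := by
    rw [← Nat.card_eq_fintype_card]
    unfold numP
    have hrel : ∀ F G : {F : SimpleGraph (Fin k) // P F},
        (MulAction.orbitRel (Equiv.Perm (Fin k)) {F : SimpleGraph (Fin k) // P F}) F G ↔
          cls F.1 = cls G.1 := by
      intro F G
      rw [MulAction.orbitRel_apply, cls_eq, MulAction.mem_orbit_iff]
      constructor
      · rintro ⟨γ, rfl⟩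
        exact ⟨SimpleGraph.Iso.comap γ.symm G.1⟩
      · rintro ⟨e⟩
        refine ⟨e.toEquiv.symm, ?_⟩
        apply Subtype.ext
        ext a b
        rw [hadj]
        exact e.map_adj_iff
    refine Nat.card_congr (Equiv.ofBijective
      (fun q => Quotient.liftOn' q
        (fun F => (⟨cls F.1, F.1, rfl, F.2⟩ : {c : Cls k // ∃ F, cls F = c ∧ P F}))
        (fun F G h => Subtype.ext ((hrel F G).1 h))) ⟨?_, ?_⟩)
    · intro q r
      refine Quotient.inductionOn₂' q r ?_
      intro F G h
      apply Quotient.sound'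
      exact (hrel F G).2 (congrArg Subtype.val h)
    · rintro ⟨c, F, rfl, hF⟩
      exact ⟨Quotient.mk'' ⟨F, hF⟩, rfl⟩
  rw [horb, Fintype.card_perm, Fintype.card_fin] at hB
  rw [mul_comm, ← hB]
  exact Finset.sum_congr rfl (fun γ _ => (hfix γ))

end Pool.Agent.H60.GU
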