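import Pool.Agent.H60.GU.FixComb

/-!
# FixEven: at most `2^(C - s(2k-11)/18)` even graphs are invariant under a permutation moving `s`
points, `C = (k-1)(k-2)/2`

Take `A`, `c`, `D` from `exists_AcD` and put `S = {e | c ∈ e}` (the star of `c`), and `E` the set
of all non-diagonal elements of `Sym2 (Fin k)`, of size `k(k-1)/2`
(`Sym2.card_subtype_not_diag`, or `(⊤ : SimpleGraph (Fin k)).edgeFinset` with
`SimpleGraph.card_edgeFinset_top_eq_card_choose_two`).
The map `F ↦ F.edgeFinset \ (D ∪ S)` from the even invariant graphs to the subsets of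
`E \ (D ∪ S)` is injective (`even_inv_determined`).  `D` and the non-diagonal part of `S` (of size
`k-1`) are disjoint subsets of `E`.  So the number is at most `2^(k(k-1)/2 - (k-1) - |D|)` and
`k(k-1)/2 - (k-1) = (k-1)(k-2)/2`; finally `xx k ^ s = 2^(-(s(2k-11)/18))`
(`Real.rpow_natCast`, `Real.rpow_mul`) and `18 |D| ≥ s(2k-11)`.
About 110 lines.
-/

namespace Pool.Agent.H60.GU

theorem fix_even {k : ℕ} (hk : 10 ≤ k) (γ : Equiv.Perm (Fin k)) :
    (Nat.card {F : SimpleGraph (Fin k) // IsEven F ∧ Inv γ F} : ℝ) ≤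
      2 ^ ((k - 1) * (k - 2) / 2) * xx k ^ γ.support.card := by
  classical
  obtain ⟨c, D, h⟩ := exists_redundant hk γ
  set T' : Finset (Sym2 (Fin k)) := Finset.univ.filter (fun e => ¬ e.IsDiag ∧ c ∉ e) with hT'
  set T : Finset (Sym2 (Fin k)) := T' \ D with hT
  have hDT : D ⊆ T' := by
    intro e he
    rw [hT', Finset.mem_filter]
    exact ⟨Finset.mem_univ _, h.nondiag e he, h.nostar e he⟩
  have hT'card : T'.card ≤ (k - 1) * (k - 2) / 2 := by
    have h1 : T' ⊆ (Finset.univ : Finset {a : Sym2 {x : Fin k // x ≠ c} // ¬ a.IsDiag}).image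
        (fun a => a.1.map Subtype.val) := by
      intro e
      induction e using Sym2.ind with
      | _ x y =>
        intro he
        rw [hT', Finset.mem_filter] at he
        obtain ⟨_, hd, hc⟩ := he
        rw [Sym2.mk_isDiag_iff] at hd
        have hx : x ≠ c := fun hh => hc (by rw [hh]; exact Sym2.mem_mk_left _ _)
        have hy : y ≠ c := fun hh => hc (by rw [hh]; exact Sym2.mem_mk_right _ _)
        rw [Finset.mem_image]
        refine ⟨⟨s(⟨x, hx⟩, ⟨y, hy⟩), ?_⟩, Finset.mem_univ _, ?_⟩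
        · rw [Sym2.mk_isDiag_iff]
          intro hh
          exact hd (congrArg Subtype.val hh)
        · simp
    refine (Finset.card_le_card h1).trans (Finset.card_image_le.trans ?_)
    rw [Finset.card_univ, Sym2.card_subtype_not_diag, Nat.choose_two_right]
    have h2 : Fintype.card {x : Fin k // x ≠ c} = k - 1 := by
      rw [Fintype.card_subtype_compl]
      simp
    rw [h2]
    exact le_of_eq rfl
  have hTcard : T.card + D.card = T'.card := Finset.card_sdiff_add_card_eq_card hDT
  have hinj : Nat.card {F : SimpleGraph (Fin k) // IsEven F ∧ Inv γ F} ≤ 2 ^ T.card := by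
    let φ : {F : SimpleGraph (Fin k) // IsEven F ∧ Inv γ F} → T.powerset :=
      fun F => ⟨T.filter (fun e => e ∈ F.1.edgeSet), Finset.mem_powerset.2 (Finset.filter_subset _ _)⟩
    have hφ : Function.Injective φ := by
      intro F F' hFF
      have h3 : T.filter (fun e => e ∈ F.1.edgeSet) = T.filter (fun e => e ∈ F'.1.edgeSet) :=
        congrArg Subtype.val hFF
      apply Subtype.ext
      refine even_inv_determined h F.2.1 F'.2.1 F.2.2 F'.2.2 ?_
      intro e heD hec
      by_cases hd : e.IsDiag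
      · constructor
        · intro he
          exact absurd hd (SimpleGraph.not_isDiag_of_mem_edgeSet _ he)
        · intro he
          exact absurd hd (SimpleGraph.not_isDiag_of_mem_edgeSet _ he)
      · have heT : e ∈ T := by
          rw [hT, Finset.mem_sdiff, hT', Finset.mem_filter]
          exact ⟨⟨Finset.mem_univ _, hd, hec⟩, heD⟩
        have h4 := Finset.ext_iff.1 h3 e
        rw [Finset.mem_filter, Finset.mem_filter] at h4
        constructor
        · intro he
          exact (h4.1 ⟨heT, he⟩).2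
        · intro he
          exact (h4.2 ⟨heT, he⟩).2
    have h5 := Nat.card_le_card_of_injective φ hφ
    rw [Nat.card_eq_fintype_card (α := T.powerset), Fintype.card_coe, Finset.card_powerset] at h5
    exact h5
  have hlarge : (γ.support.card : ℝ) * (2 * (k : ℝ) - 11) ≤ 18 * (D.card : ℝ) := by
    have h6 := h.large
    have h7 : ((2 * k - 11 : ℕ) : ℝ) = 2 * (k : ℝ) - 11 := by
      rw [Nat.cast_sub (by omega)]
      push_cast
      ring
    rw [← h7]
    exact_mod_cast h6
  have hxx : xx k ^ γ.support.card = (2 : ℝ) ^ (-((2 * (k : ℝ) - 11) / 18) * (γ.support.card : ℝ)) := by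
    rw [Real.rpow_mul (by norm_num), Real.rpow_natCast]
    rfl
  rw [hxx]
  have h8 : ((2 ^ T.card : ℕ) : ℝ) = (2 : ℝ) ^ (T.card : ℝ) := by
    rw [Real.rpow_natCast]
    push_cast
    rfl
  have h9 : ((2 : ℝ) ^ ((k - 1) * (k - 2) / 2)) = (2 : ℝ) ^ (((k - 1) * (k - 2) / 2 : ℕ) : ℝ) := by
    rw [Real.rpow_natCast]
  calc (Nat.card {F : SimpleGraph (Fin k) // IsEven F ∧ Inv γ F} : ℝ) ≤ ((2 ^ T.card : ℕ) : ℝ) := by
        exact_mod_cast hinj
    _ = (2 : ℝ) ^ (T.card : ℝ) := h8
    _ ≤ (2 : ℝ) ^ ((((k - 1) * (k - 2) / 2 : ℕ) : ℝ) + -((2 * (k : ℝ) - 11) / 18) * (γ.support.card : ℝ)) := by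
        apply Real.rpow_le_rpow_of_exponent_le (by norm_num)
        have h10 : (T.card : ℝ) + (D.card : ℝ) ≤ (((k - 1) * (k - 2) / 2 : ℕ) : ℝ) := by
          have h11 : T.card + D.card ≤ (k - 1) * (k - 2) / 2 := by
            rw [hTcard]
            exact hT'card
          exact_mod_cast h11
        nlinarith
    _ = (2 : ℝ) ^ (((k - 1) * (k - 2) / 2 : ℕ) : ℝ) *
          (2 : ℝ) ^ (-((2 * (k : ℝ) - 11) / 18) * (γ.support.card : ℝ)) := by
        rw [Real.rpow_add (by norm_num)]
    _ = 2 ^ ((k - 1) * (k - 2) / 2) *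
          (2 : ℝ) ^ (-((2 * (k : ℝ) - 11) / 18) * (γ.support.card : ℝ)) := by
        rw [h9]

end Pool.Agent.H60.GU
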