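import Pool.Agent.H60.GU.Defs

/-!
# SumSupp: `∑_γ x^{|supp γ|} ≤ (1 + k x)^k`

`x^{|supp γ|} = ∏ i, (if γ i = i then 1 else x)`; the sum over all functions `f : Fin k → Fin k` of
`∏ i, (if f i = i then 1 else x)` equals `∏ i, ∑ j, (if j = i then 1 else x)`
(`Finset.prod_univ_sum`, `Fintype.piFinset_univ`) and each factor is `1 + (k-1) x ≤ 1 + k x`; the
permutations inject into the functions and all terms are nonnegative
(`Finset.sum_le_sum_of_subset_of_nonneg` after `Finset.sum_map`/`Finset.sum_image`, or
`sum_le_sum_of_injOn`).  About 50 lines.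
-/

namespace Pool.Agent.H60.GU

theorem sum_supp {k : ℕ} {x : ℝ} (hx : 0 ≤ x) :
    ∑ γ : Equiv.Perm (Fin k), x ^ γ.support.card ≤ (1 + k * x) ^ k := by
  classical
  have h1 : ∀ γ : Equiv.Perm (Fin k), x ^ γ.support.card =
      ∏ i : Fin k, (if γ i = i then (1 : ℝ) else x) := by
    intro γ
    have : γ.support = Finset.univ.filter (fun i => ¬ γ i = i) := by
      ext i
      simp [Equiv.Perm.mem_support]
    rw [this, Finset.prod_ite, Finset.prod_const_one, one_mul, Finset.prod_const]
  let T : Finset (Fin k → Fin k) :=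
    Finset.image (fun γ : Equiv.Perm (Fin k) => (γ.toFun : Fin k → Fin k)) Finset.univ
  have h2 : ∑ γ : Equiv.Perm (Fin k), x ^ γ.support.card =
      ∑ f ∈ T, ∏ i : Fin k, (if f i = i then (1 : ℝ) else x) := by
    rw [Finset.sum_image]
    · exact Finset.sum_congr rfl (fun γ _ => h1 γ)
    · intro a _ b _ hab
      exact Equiv.coe_fn_injective hab
  have h3 : ∑ f : Fin k → Fin k, ∏ i : Fin k, (if f i = i then (1 : ℝ) else x) =
      ∏ i : Fin k, ∑ j : Fin k, (if j = i then (1 : ℝ) else x) := by
    rw [Finset.prod_univ_sum]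
    rw [Fintype.piFinset_univ]
  have h4 : ∀ i : Fin k, ∑ j : Fin k, (if j = i then (1 : ℝ) else x) ≤ 1 + k * x := by
    intro i
    have h5 : ∀ j : Fin k, (if j = i then (1 : ℝ) else x) ≤ (if j = i then (1 : ℝ) else 0) + x := by
      intro j
      split_ifs
      · linarith
      · linarith
    calc ∑ j : Fin k, (if j = i then (1 : ℝ) else x) ≤
        ∑ j : Fin k, ((if j = i then (1 : ℝ) else 0) + x) := Finset.sum_le_sum (fun j _ => h5 j)
      _ = 1 + k * x := by
        rw [Finset.sum_add_distrib, Finset.sum_ite_eq' Finset.univ i (fun _ => (1 : ℝ))]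
        simp
  rw [h2]
  calc _ ≤ ∑ f : Fin k → Fin k, ∏ i : Fin k, (if f i = i then (1 : ℝ) else x) := by
        apply Finset.sum_le_sum_of_subset_of_nonneg (Finset.subset_univ _)
        intro f _ _
        apply Finset.prod_nonneg
        intro i _
        split_ifs
        · exact zero_le_one
        · exact hx
    _ = ∏ i : Fin k, ∑ j : Fin k, (if j = i then (1 : ℝ) else x) := h3
    _ ≤ ∏ _i : Fin k, (1 + k * x) := by
        apply Finset.prod_le_prod
        · intro i _
          apply Finset.sum_nonneg
          intro j _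
          split_ifs
          · exact zero_le_one
          · exact hx
        · intro i _
          exact h4 i
    _ = (1 + k * x) ^ k := by
        rw [Finset.prod_const, Finset.card_univ, Fintype.card_fin]

end Pool.Agent.H60.GU
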