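import Pool.Agent.H60.GU.EvenExt
import Pool.Agent.H60.GU.Burn
import Pool.Agent.H60.GU.FixEven
import Pool.Agent.H60.GU.SumSupp

/-!
# CountSym: few even graphs have symmetries

* `count_even`: `burn IsEven` (invariance: `IsEven.iso`), `fix_even` for every `γ`, `sum_supp`.
* `count_nonasym`: `burn (fun F => IsEven F ∧ ¬ Asym F)`.  The term `γ = 1` is
  `#{F | even, ¬ Asym F}`, and such an `F` is invariant under some `γ ≠ 1`, so that term is at most
  `∑_{γ ≠ 1} #{F | even, Inv γ F}` (union bound; `Asym F` fails iff some `φ : F ≃g F` moves a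
  point, `γ = φ.toEquiv`); the terms `γ ≠ 1` are at most `#{F | even, Inv γ F}`.
  Altogether `2 ∑_{γ ≠ 1} 2^C x^{|supp γ|} = 2 · 2^C (∑_γ x^{|supp γ|} - 1)`, as
  `(1 : Perm).support.card = 0`; `sum_supp`.
About 100 lines.
-/

namespace Pool.Agent.H60.GU

theorem count_even {k : ℕ} (hk : 10 ≤ k) :
    (k.factorial : ℝ) * numP (IsEven (k := k)) ≤
      2 ^ ((k - 1) * (k - 2) / 2) * (1 + k * xx k) ^ k := by
  classical
  have hx : 0 ≤ xx k := by
    unfold xx
    positivity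
  have h1 := burn (IsEven (k := k)) (fun F F' he hF => by
    obtain ⟨e⟩ := he
    exact hF.iso e)
  have h2 : (k.factorial : ℝ) * numP (IsEven (k := k)) =
      ∑ γ : Equiv.Perm (Fin k), (Nat.card {F : SimpleGraph (Fin k) // IsEven F ∧ Inv γ F} : ℝ) := by
    exact_mod_cast h1
  rw [h2]
  calc ∑ γ : Equiv.Perm (Fin k), (Nat.card {F : SimpleGraph (Fin k) // IsEven F ∧ Inv γ F} : ℝ)
      ≤ ∑ γ : Equiv.Perm (Fin k), 2 ^ ((k - 1) * (k - 2) / 2) * xx k ^ γ.support.card :=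
        Finset.sum_le_sum (fun γ _ => fix_even hk γ)
    _ = 2 ^ ((k - 1) * (k - 2) / 2) * ∑ γ : Equiv.Perm (Fin k), xx k ^ γ.support.card := by
        rw [Finset.mul_sum]
    _ ≤ 2 ^ ((k - 1) * (k - 2) / 2) * (1 + k * xx k) ^ k :=
        mul_le_mul_of_nonneg_left (sum_supp hx) (by positivity)

theorem count_nonasym {k : ℕ} (hk : 10 ≤ k) :
    (k.factorial : ℝ) * numP (fun F : SimpleGraph (Fin k) => IsEven F ∧ ¬ Asym F) ≤
      2 * 2 ^ ((k - 1) * (k - 2) / 2) * ((1 + k * xx k) ^ k - 1) := by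
  classical
  have hx : 0 ≤ xx k := by
    unfold xx
    positivity
  have h1 := burn (fun F : SimpleGraph (Fin k) => IsEven F ∧ ¬ Asym F) (fun F F' he hF => by
    obtain ⟨e⟩ := he
    exact ⟨hF.1.iso e, fun h => hF.2 (h.iso e.symm)⟩)
  have h2 : (k.factorial : ℝ) * numP (fun F : SimpleGraph (Fin k) => IsEven F ∧ ¬ Asym F) =
      ∑ γ : Equiv.Perm (Fin k),
        (Nat.card {F : SimpleGraph (Fin k) // (IsEven F ∧ ¬ Asym F) ∧ Inv γ F} : ℝ) := by
    exact_mod_cast h1
  rw [h2]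
  set N : Equiv.Perm (Fin k) → ℕ := fun γ =>
    Nat.card {F : SimpleGraph (Fin k) // IsEven F ∧ Inv γ F} with hN
  have hmono : ∀ γ : Equiv.Perm (Fin k),
      Nat.card {F : SimpleGraph (Fin k) // (IsEven F ∧ ¬ Asym F) ∧ Inv γ F} ≤ N γ := by
    intro γ
    rw [hN]
    exact Nat.card_le_card_of_injective
      (fun F : {F : SimpleGraph (Fin k) // (IsEven F ∧ ¬ Asym F) ∧ Inv γ F} =>
        (⟨F.1, F.2.1.1, F.2.2⟩ : {F : SimpleGraph (Fin k) // IsEven F ∧ Inv γ F}))
      (fun F F' h => by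
        have h0 := congrArg (fun G : {F : SimpleGraph (Fin k) // IsEven F ∧ Inv γ F} => G.1) h
        exact Subtype.ext h0)
  have hone : Nat.card {F : SimpleGraph (Fin k) // (IsEven F ∧ ¬ Asym F) ∧ Inv 1 F} ≤
      ∑ γ ∈ Finset.univ.erase (1 : Equiv.Perm (Fin k)), N γ := by
    have h3 : Nat.card {F : SimpleGraph (Fin k) // (IsEven F ∧ ¬ Asym F) ∧ Inv 1 F} =
        (Finset.univ.filter (fun F : SimpleGraph (Fin k) =>
          (IsEven F ∧ ¬ Asym F) ∧ Inv 1 F)).card := by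
      rw [Nat.card_eq_fintype_card, Fintype.card_subtype]
    have h4 : ∀ γ : Equiv.Perm (Fin k), N γ =
        (Finset.univ.filter (fun F : SimpleGraph (Fin k) => IsEven F ∧ Inv γ F)).card := by
      intro γ
      rw [hN]
      simp only
      rw [Nat.card_eq_fintype_card, Fintype.card_subtype]
    rw [h3, Finset.sum_congr rfl (fun γ _ => h4 γ)]
    refine (Finset.card_le_card ?_).trans
      (Finset.card_biUnion_le (s := Finset.univ.erase (1 : Equiv.Perm (Fin k)))
        (t := fun γ => Finset.univ.filter (fun F : SimpleGraph (Fin k) => IsEven F ∧ Inv γ F)))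
    intro F hF
    rw [Finset.mem_filter] at hF
    obtain ⟨_, ⟨hE, hA⟩, _⟩ := hF
    unfold Asym at hA
    push Not at hA
    obtain ⟨φ, v, hv⟩ := hA
    rw [Finset.mem_biUnion]
    refine ⟨φ.toEquiv, ?_, ?_⟩
    · rw [Finset.mem_erase]
      refine ⟨?_, Finset.mem_univ _⟩
      intro h5
      apply hv
      have h6 := congrArg (fun σ : Equiv.Perm (Fin k) => σ v) h5
      simpa using h6
    · rw [Finset.mem_filter]
      refine ⟨Finset.mem_univ _, hE, ?_⟩
      intro a b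
      exact φ.map_rel_iff
  have hsplit : ∑ γ : Equiv.Perm (Fin k),
        Nat.card {F : SimpleGraph (Fin k) // (IsEven F ∧ ¬ Asym F) ∧ Inv γ F} ≤
      2 * ∑ γ ∈ Finset.univ.erase (1 : Equiv.Perm (Fin k)), N γ := by
    rw [← Finset.add_sum_erase Finset.univ _ (Finset.mem_univ (1 : Equiv.Perm (Fin k)))]
    have h7 : ∑ γ ∈ Finset.univ.erase (1 : Equiv.Perm (Fin k)),
        Nat.card {F : SimpleGraph (Fin k) // (IsEven F ∧ ¬ Asym F) ∧ Inv γ F} ≤
        ∑ γ ∈ Finset.univ.erase (1 : Equiv.Perm (Fin k)), N γ :=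
      Finset.sum_le_sum (fun γ _ => hmono γ)
    omega
  have hreal : (∑ γ ∈ Finset.univ.erase (1 : Equiv.Perm (Fin k)), (N γ : ℝ)) ≤
      2 ^ ((k - 1) * (k - 2) / 2) * ((1 + k * xx k) ^ k - 1) := by
    calc (∑ γ ∈ Finset.univ.erase (1 : Equiv.Perm (Fin k)), (N γ : ℝ))
        ≤ ∑ γ ∈ Finset.univ.erase (1 : Equiv.Perm (Fin k)),
            2 ^ ((k - 1) * (k - 2) / 2) * xx k ^ γ.support.card :=
          Finset.sum_le_sum (fun γ _ => fix_even hk γ)
      _ = 2 ^ ((k - 1) * (k - 2) / 2) *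
            ∑ γ ∈ Finset.univ.erase (1 : Equiv.Perm (Fin k)), xx k ^ γ.support.card := by
          rw [Finset.mul_sum]
      _ ≤ 2 ^ ((k - 1) * (k - 2) / 2) * ((1 + k * xx k) ^ k - 1) := by
          apply mul_le_mul_of_nonneg_left _ (by positivity)
          have h8 := Finset.add_sum_erase Finset.univ
            (fun γ : Equiv.Perm (Fin k) => xx k ^ γ.support.card)
            (Finset.mem_univ (1 : Equiv.Perm (Fin k)))
          have h9 := sum_supp (k := k) hx
          have h10 : xx k ^ (1 : Equiv.Perm (Fin k)).support.card = 1 := by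
            simp
          rw [h10] at h8
          linarith
  have hcast : (∑ γ : Equiv.Perm (Fin k),
        (Nat.card {F : SimpleGraph (Fin k) // (IsEven F ∧ ¬ Asym F) ∧ Inv γ F} : ℝ)) ≤
      2 * ∑ γ ∈ Finset.univ.erase (1 : Equiv.Perm (Fin k)), (N γ : ℝ) := by
    exact_mod_cast hsplit
  calc _ ≤ 2 * ∑ γ ∈ Finset.univ.erase (1 : Equiv.Perm (Fin k)), (N γ : ℝ) := hcast
    _ ≤ 2 * (2 ^ ((k - 1) * (k - 2) / 2) * ((1 + k * xx k) ^ k - 1)) :=
        mul_le_mul_of_nonneg_left hreal (by norm_num)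
    _ = 2 * 2 ^ ((k - 1) * (k - 2) / 2) * ((1 + k * xx k) ^ k - 1) := by ring

end Pool.Agent.H60.GU
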