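import Mathlib

/-! Near graph universal cycles for unlabelled graphs (MP_4cbe31_co): definitions. -/

namespace Pool.Agent.H60.GU

/-- Two graphs on `Fin n` are related when they are isomorphic. -/
def isoSetoid (n : ℕ) : Setoid (SimpleGraph (Fin n)) where
  r G H := Nonempty (G ≃g H)
  iseqv := ⟨fun _ => ⟨SimpleGraph.Iso.refl⟩, fun ⟨e⟩ => ⟨e.symm⟩, fun ⟨e⟩ ⟨f⟩ => ⟨e.trans f⟩⟩

/-- The unlabelled graphs on `n` vertices: isomorphism classes of graphs on `Fin n`. -/
def Cls (n : ℕ) : Type := Quotient (isoSetoid n)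

/-- The isomorphism class of a graph on `Fin n`. -/
def cls {n : ℕ} (G : SimpleGraph (Fin n)) : Cls n := Quotient.mk (isoSetoid n) G

/-- The number of isomorphism classes of graphs on `n` vertices. -/
noncomputable def numCls (n : ℕ) : ℕ := Nat.card (Cls n)

/-- The `n`-window at `i` of the cyclically ordered graph `G` with vertex set `ZMod N`:
the graph induced on `i, i+1, ..., i+n-1`, transported to `Fin n`. -/
def window {N : ℕ} (G : SimpleGraph (ZMod N)) (n : ℕ) (i : ZMod N) : SimpleGraph (Fin n) :=
  G.comap (fun j : Fin n => i + ((j : ℕ) : ZMod N))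

/-- The first `m` vertices of an ordered graph on `m+1` vertices. -/
def pre {m : ℕ} (W : SimpleGraph (Fin (m + 1))) : SimpleGraph (Fin m) := W.comap Fin.castSucc

/-- The last `m` vertices of an ordered graph on `m+1` vertices. -/
def suf {m : ℕ} (W : SimpleGraph (Fin (m + 1))) : SimpleGraph (Fin m) := W.comap Fin.succ

/-- `Walk s l t`: the list `l` of ordered graphs on `m+1` vertices is a walk from the
ordered graph `s` to the ordered graph `t` (both on `m` vertices). -/
inductive Walk {m : ℕ} : SimpleGraph (Fin m) → List (SimpleGraph (Fin (m + 1))) →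
    SimpleGraph (Fin m) → Prop
  | nil (s : SimpleGraph (Fin m)) : Walk s [] s
  | cons (W : SimpleGraph (Fin (m + 1))) (l : List (SimpleGraph (Fin (m + 1))))
      (t : SimpleGraph (Fin m)) : Walk (suf W) l t → Walk (pre W) (W :: l) t

/-- All degrees are even. -/
def IsEven {k : ℕ} (F : SimpleGraph (Fin k)) : Prop := ∀ v, Even (F.neighborSet v).ncard

/-- No nontrivial automorphism. -/
def Asym {k : ℕ} (F : SimpleGraph (Fin k)) : Prop := ∀ φ : F ≃g F, ∀ v, φ v = v

/-- The middle vertices `1, ..., m` of `Fin (m+2)`. -/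
def mid (m : ℕ) : Fin m → Fin (m + 2) := fun j => j.succ.castSucc

/-- The permutation `γ` is an automorphism of `F`. -/
def Inv {k : ℕ} (γ : Equiv.Perm (Fin k)) (F : SimpleGraph (Fin k)) : Prop :=
  ∀ a b, F.Adj (γ a) (γ b) ↔ F.Adj a b

/-- Number of isomorphism classes containing a graph with property `P`. -/
noncomputable def numP {k : ℕ} (P : SimpleGraph (Fin k) → Prop) : ℕ :=
  Nat.card {c : Cls k // ∃ F, cls F = c ∧ P F}

/-- The saving per moved point. -/
noncomputable def xx (k : ℕ) : ℝ := (2 : ℝ) ^ (-((2 * (k : ℝ) - 11) / 18))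

instance finite_cls (n : ℕ) : Finite (Cls n) := by
  unfold Cls
  infer_instance

theorem cls_eq {n : ℕ} {G H : SimpleGraph (Fin n)} : cls G = cls H ↔ Nonempty (G ≃g H) := by
  unfold cls
  exact Quotient.eq (r := isoSetoid n)

theorem cls_surj {n : ℕ} (c : Cls n) : ∃ G, cls G = c := by
  exact Quotient.exists_rep c

end Pool.Agent.H60.GU
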