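import Pool.Agent.H60.GU.Defs

/-!
# EvenExt: even graphs are determined by, and extend, their vertex-deleted subgraphs

* `even_ext`: given `G` on `Fin n`, join the new vertex `last n` to the vertices of odd degree of
  `G`.  Old vertices get even degree; the new vertex has as degree the number of odd vertices of
  `G`, which is even (`SimpleGraph.even_card_odd_degree_vertices`).
* `deck_inj`: let `e : F - v ≃g F' - v'`.  For `a ≠ v`: `F.Adj v a` iff the degree of `a` in
  `F - v` is odd (the degree of `a` in `F` is even and equals that in `F - v` plus `[F.Adj v a]`);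
  the same for `F'`, and `e` preserves the degrees in the deleted graphs, so
  `F.Adj v a ↔ F'.Adj v' (e a)`.  `ψ` maps `v ↦ v'` and `v.succAbove a ↦ v'.succAbove (e a)`
  (`finSuccEquiv'`, or `Equiv.ofBijective`, or `Fin.insertNth`-style cases with
  `Fin.succAboveCases`).
About 150 lines.
-/

namespace Pool.Agent.H60.GU

private theorem ncard_iso {k l : ℕ} {G : SimpleGraph (Fin k)} {G' : SimpleGraph (Fin l)}
    (e : G ≃g G') (a : Fin k) : (G'.neighborSet (e a)).ncard = (G.neighborSet a).ncard := by
  have h : G'.neighborSet (e a) = e '' G.neighborSet a := by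
    ext b
    rw [SimpleGraph.mem_neighborSet, Set.mem_image]
    constructor
    · intro hb
      refine ⟨e.symm b, ?_, e.apply_symm_apply b⟩
      rw [SimpleGraph.mem_neighborSet, ← e.map_adj_iff, e.apply_symm_apply]
      exact hb
    · rintro ⟨c, hc, rfl⟩
      exact e.map_adj_iff.2 hc
  rw [h]
  exact Set.ncard_image_of_injective _ e.injective

open Classical in
private theorem ncard_del {k : ℕ} (F : SimpleGraph (Fin (k + 1))) (v : Fin (k + 1)) (a : Fin k) :
    (F.neighborSet (v.succAbove a)).ncard =
      ((F.comap v.succAbove).neighborSet a).ncard +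
        (if F.Adj v (v.succAbove a) then 1 else 0) := by
  have hinj : Function.Injective v.succAbove := Fin.succAbove_right_injective
  have h1 : (v.succAbove '' (F.comap v.succAbove).neighborSet a).ncard =
      ((F.comap v.succAbove).neighborSet a).ncard := Set.ncard_image_of_injective _ hinj
  rw [← h1]
  split_ifs with h
  · have h2 : F.neighborSet (v.succAbove a) =
        insert v (v.succAbove '' (F.comap v.succAbove).neighborSet a) := by
      ext b
      rw [SimpleGraph.mem_neighborSet, Set.mem_insert_iff, Set.mem_image]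
      rcases Fin.eq_self_or_eq_succAbove v b with rfl | ⟨c, rfl⟩
      · simp only [true_or, iff_true]
        exact h.symm
      · constructor
        · intro hb
          exact Or.inr ⟨c, hb, rfl⟩
        · rintro (hb | ⟨d, hd, hdc⟩)
          · exact absurd hb (Fin.succAbove_ne v c)
          · rw [← hdc]
            exact hd
    rw [h2, Set.ncard_insert_of_notMem]
    rintro ⟨c, _, hc⟩
    exact Fin.succAbove_ne v c hc
  · have h2 : F.neighborSet (v.succAbove a) =
        v.succAbove '' (F.comap v.succAbove).neighborSet a := by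
      ext b
      rw [SimpleGraph.mem_neighborSet, Set.mem_image]
      rcases Fin.eq_self_or_eq_succAbove v b with rfl | ⟨c, rfl⟩
      · constructor
        · intro hb
          exact absurd hb.symm h
        · rintro ⟨d, _, hd⟩
          exact absurd hd (Fin.succAbove_ne b d)
      · constructor
        · intro hb
          exact ⟨c, hb, rfl⟩
        · rintro ⟨d, hd, hdc⟩
          rw [← hdc]
          exact hd
    rw [h2, add_zero]

private theorem adj_iff_odd {k : ℕ} {F : SimpleGraph (Fin (k + 1))} (hF : IsEven F)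
    (v : Fin (k + 1)) (a : Fin k) :
    F.Adj v (v.succAbove a) ↔ Odd ((F.comap v.succAbove).neighborSet a).ncard := by
  classical
  have h1 := ncard_del F v a
  have h2 := hF (v.succAbove a)
  rw [h1] at h2
  by_cases h : F.Adj v (v.succAbove a)
  · rw [if_pos h] at h2
    simp only [h, true_iff]
    rwa [Nat.even_add_one, Nat.not_even_iff_odd] at h2
  · rw [if_neg h, add_zero] at h2
    simp only [h, false_iff, Nat.not_odd_iff_even]
    exact h2

/-- the graph of `even_ext` -/
private def extG {n : ℕ} (G : SimpleGraph (Fin n)) : SimpleGraph (Fin (n + 1)) where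
  Adj x y := (∃ a b : Fin n, x = Fin.castSucc a ∧ y = Fin.castSucc b ∧ G.Adj a b) ∨
    (∃ a : Fin n, x = Fin.castSucc a ∧ y = Fin.last n ∧ Odd (G.neighborSet a).ncard) ∨
    (∃ a : Fin n, y = Fin.castSucc a ∧ x = Fin.last n ∧ Odd (G.neighborSet a).ncard)
  symm := by
    constructor
    rintro x y (⟨a, b, h1, h2, h3⟩ | ⟨a, h1, h2, h3⟩ | ⟨a, h1, h2, h3⟩)
    · exact Or.inl ⟨b, a, h2, h1, h3.symm⟩
    · exact Or.inr (Or.inr ⟨a, h1, h2, h3⟩)
    · exact Or.inr (Or.inl ⟨a, h1, h2, h3⟩)
  loopless := by
    constructor
    rintro x (⟨a, b, h1, h2, h3⟩ | ⟨a, h1, h2, h3⟩ | ⟨a, h1, h2, h3⟩)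
    · rw [h1] at h2
      rw [Fin.castSucc_injective n h2] at h3
      exact G.loopless.irrefl _ h3
    · rw [h1] at h2
      exact Fin.castSucc_ne_last a h2
    · rw [h1] at h2
      exact Fin.castSucc_ne_last a h2

private theorem extG_comap {n : ℕ} (G : SimpleGraph (Fin n)) :
    (extG G).comap (Fin.last n).succAbove = G := by
  ext a b
  rw [SimpleGraph.comap_adj, Fin.succAbove_last]
  constructor
  · rintro (⟨c, d, h1, h2, h3⟩ | ⟨c, h1, h2, h3⟩ | ⟨c, h1, h2, h3⟩)
    · rw [Fin.castSucc_injective n h1, Fin.castSucc_injective n h2]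
      exact h3
    · exact absurd h2 (Fin.castSucc_ne_last b)
    · exact absurd h2 (Fin.castSucc_ne_last a)
  · intro h
    exact Or.inl ⟨a, b, rfl, rfl, h⟩

theorem even_ext {n : ℕ} (G : SimpleGraph (Fin n)) :
    ∃ F : SimpleGraph (Fin (n + 1)), IsEven F ∧ F.comap (Fin.last n).succAbove = G := by
  classical
  refine ⟨extG G, ?_, extG_comap G⟩
  have hadj : ∀ a : Fin n, (extG G).Adj (Fin.last n) ((Fin.last n).succAbove a) ↔
      Odd (G.neighborSet a).ncard := by
    intro a
    rw [Fin.succAbove_last]
    constructor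
    · rintro (⟨c, d, h1, h2, h3⟩ | ⟨c, h1, h2, h3⟩ | ⟨c, h1, h2, h3⟩)
      · exact absurd h1.symm (Fin.castSucc_ne_last c)
      · exact absurd h1.symm (Fin.castSucc_ne_last c)
      · rw [Fin.castSucc_injective n h1]
        exact h3
    · intro h
      exact Or.inr (Or.inr ⟨a, rfl, rfl, h⟩)
  intro x
  rcases Fin.eq_self_or_eq_succAbove (Fin.last n) x with rfl | ⟨a, rfl⟩
  · have h1 : (extG G).neighborSet (Fin.last n) =
        (Fin.last n).succAbove '' {a | Odd (G.neighborSet a).ncard} := by
      ext b
      rw [SimpleGraph.mem_neighborSet, Set.mem_image]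
      rcases Fin.eq_self_or_eq_succAbove (Fin.last n) b with rfl | ⟨c, rfl⟩
      · constructor
        · intro h
          exact absurd h ((extG G).loopless.irrefl _)
        · rintro ⟨d, _, hd⟩
          exact absurd hd (Fin.succAbove_ne _ d)
      · rw [hadj c]
        constructor
        · intro h
          exact ⟨c, h, rfl⟩
        · rintro ⟨d, hd, hdc⟩
          rw [← Fin.succAbove_right_injective hdc]
          exact hd
    rw [h1, Set.ncard_image_of_injective _ Fin.succAbove_right_injective]
    have h2 := G.even_card_odd_degree_vertices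
    have h3 : {a | Odd (G.neighborSet a).ncard} =
        ((Finset.univ.filter fun v => Odd (G.degree v) : Finset (Fin n)) : Set (Fin n)) := by
      ext a
      simp only [Set.mem_ofPred_eq, Finset.coe_filter, Finset.mem_univ, true_and]
      rw [Set.ncard_eq_toFinset_card', ← SimpleGraph.card_neighborFinset_eq_degree]
      rfl
    rw [h3, Set.ncard_coe_finset]
    exact h2
  · rw [ncard_del, extG_comap]
    by_cases h : Odd (G.neighborSet a).ncard
    · rw [if_pos ((hadj a).2 h)]
      exact h.add_odd odd_one
    · rw [if_neg fun h' => h ((hadj a).1 h'), add_zero]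
      exact Nat.not_odd_iff_even.1 h

theorem deck_inj {k : ℕ} {F F' : SimpleGraph (Fin (k + 1))} (hF : IsEven F) (hF' : IsEven F')
    {v v' : Fin (k + 1)} (e : F.comap v.succAbove ≃g F'.comap v'.succAbove) :
    ∃ ψ : F ≃g F', ψ v = v' := by
  have key : ∀ a, F'.Adj v' (v'.succAbove (e a)) ↔ F.Adj v (v.succAbove a) := by
    intro a
    rw [adj_iff_odd hF, adj_iff_odd hF', ncard_iso e a]
  let ψ : Fin (k + 1) ≃ Fin (k + 1) :=
    (finSuccEquiv' v).trans ((Equiv.optionCongr e.toEquiv).trans (finSuccEquiv' v').symm)
  have hv : ψ v = v' := by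
    change (finSuccEquiv' v').symm ((Equiv.optionCongr e.toEquiv) (finSuccEquiv' v v)) = v'
    rw [finSuccEquiv'_at]
    simp
  have ha : ∀ a, ψ (v.succAbove a) = v'.succAbove (e a) := by
    intro a
    change (finSuccEquiv' v').symm
      ((Equiv.optionCongr e.toEquiv) (finSuccEquiv' v (v.succAbove a))) = _
    rw [finSuccEquiv'_succAbove]
    simp
  refine ⟨⟨ψ, ?_⟩, hv⟩
  intro x y
  rcases Fin.eq_self_or_eq_succAbove v x with rfl | ⟨a, rfl⟩
  · rcases Fin.eq_self_or_eq_succAbove x y with rfl | ⟨b, rfl⟩
    · constructor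
      · intro h
        exact absurd h (F'.loopless.irrefl _)
      · intro h
        exact absurd h (F.loopless.irrefl _)
    · rw [hv, ha]
      exact key b
  · rcases Fin.eq_self_or_eq_succAbove v y with rfl | ⟨b, rfl⟩
    · rw [hv, ha, F'.adj_comm, F.adj_comm]
      exact key a
    · rw [ha, ha]
      exact e.map_adj_iff

theorem IsEven.iso {k : ℕ} {F F' : SimpleGraph (Fin k)} (hF : IsEven F) (e : F ≃g F') :
    IsEven F' := by
  intro v
  have h := ncard_iso e (e.symm v)
  rw [e.apply_symm_apply] at h
  rw [h]
  exact hF _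

theorem Asym.iso {k : ℕ} {F F' : SimpleGraph (Fin k)} (hF : Asym F) (e : F ≃g F') :
    Asym F' := by
  intro φ v
  have h := hF ((e.trans φ).trans e.symm) (e.symm v)
  have h2 : e.symm (φ (e (e.symm v))) = e.symm v := h
  rw [e.apply_symm_apply] at h2
  exact e.symm.injective h2

end Pool.Agent.H60.GU
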