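import Pool.Agent.H60.GU.Defs

/-!
# FixComb: the set of redundant pairs for a permutation

Let `s = γ.support.card`.
1. Take `A ⊆ γ.support` with `A ∩ γ(A) = ∅` of maximal size.  For `x ∈ supp γ \ A`, the set
   `A ∪ {x}` violates the property, so `x ∈ γ A` or `γ x ∈ A` (`γ x ≠ x`).  Hence
   `supp γ ⊆ A ∪ γ A ∪ γ⁻¹ A` and `3 |A| ≥ s`.  Shrink `A` to a subset of size
   `α = (s + 2) / 3` (`Finset.exists_subset_card_eq`), the property is inherited.
2. `2 α ≤ 2 (k+2)/3 < k`, so some `c ∉ A ∪ γ A`.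
3. `D` = the set of `s(a,x)` with `a ∈ A`, `x ≠ a`, `x ≠ c`, `γ x ∉ A`, `γ x ≠ c`.
   For each `a` there are at least `k - α - 3` such `x`, and every pair arises from at most two
   ordered pairs `(a,x)`: `2 |D| ≥ α (k - α - 3)` (e.g. `Finset.card_le_mul_card_image`
   for the map `(a,x) ↦ s(a,x)`, whose fibres have at most 2 elements).
   As `3 α ≥ s` and `k - α - 3 ≥ (2k-11)/3`: `18 |D| ≥ s (2k - 11)`.
4. For `e = s(a,x) ∈ D`: `γ a ∉ A`, `γ x ∉ A`, so `γ e` has no element in `A`, hence is not in `D`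
   (all members of `D` meet `A`); `γ a ≠ c` as `c ∉ γ A`, `γ x ≠ c`: so `c ∉ γ e`.
About 160 lines.

`even_inv_determined`: if two even `γ`-invariant graphs agree outside `D ∪ star c` they are equal:
for `e ∈ D` both agree on `γ e ∉ D ∪ star c`, hence on `e`; so they agree on all pairs not
containing `c`; and then for `x ≠ c` the parity of the degree of `x` gives the pair `{x,c}`:
`F.Adj x c` iff the number of neighbours of `x` other than `c` is odd.  About 70 lines.
-/

namespace Pool.Agent.H60.GU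

/-- The data used to count invariant even graphs. -/
structure Redundant {k : ℕ} (γ : Equiv.Perm (Fin k)) (c : Fin k) (D : Finset (Sym2 (Fin k))) :
    Prop where
  nondiag : ∀ e ∈ D, ¬ e.IsDiag
  nostar : ∀ e ∈ D, c ∉ e
  shift : ∀ e ∈ D, e.map γ ∉ D
  shiftc : ∀ e ∈ D, c ∉ e.map γ
  large : γ.support.card * (2 * k - 11) ≤ 18 * D.card

/-- steps 1 and 2 -/
private theorem exists_A {k : ℕ} (hk : 10 ≤ k) (γ : Equiv.Perm (Fin k)) :
    ∃ (A : Finset (Fin k)) (c : Fin k), (∀ a ∈ A, γ a ∉ A) ∧ A.card = (γ.support.card + 2) / 3 ∧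
      c ∉ A ∧ ∀ a ∈ A, γ a ≠ c := by
  classical
  set 𝒮 := γ.support.powerset.filter (fun A => ∀ a ∈ A, γ a ∉ A) with h𝒮
  have hne : 𝒮.Nonempty := ⟨∅, by simp [h𝒮]⟩
  obtain ⟨A, hA, hmax⟩ := Finset.exists_max_image 𝒮 Finset.card hne
  rw [h𝒮, Finset.mem_filter, Finset.mem_powerset] at hA
  obtain ⟨hsub, hd⟩ := hA
  have hcov : γ.support ⊆ A ∪ A.image γ ∪ A.image γ.symm := by
    intro x hx
    by_contra hxn
    simp only [Finset.mem_union, Finset.mem_image, not_or, not_exists, not_and] at hxn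
    obtain ⟨⟨h1, h2⟩, h3⟩ := hxn
    have h4 : γ x ∉ A := fun h => h3 _ h (by simp)
    have h5 : insert x A ∈ 𝒮 := by
      rw [h𝒮, Finset.mem_filter, Finset.mem_powerset]
      refine ⟨Finset.insert_subset hx hsub, ?_⟩
      intro a ha hga
      rw [Finset.mem_insert] at ha hga
      rcases ha with rfl | ha
      · rcases hga with hga | hga
        · exact (Equiv.Perm.mem_support.1 hx) hga
        · exact h4 hga
      · rcases hga with hga | hga
        · exact h2 a ha hga
        · exact hd a ha hga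
    have h6 := hmax _ h5
    rw [Finset.card_insert_of_notMem h1] at h6
    omega
  have hcard : γ.support.card ≤ 3 * A.card := by
    have h1 := Finset.card_le_card hcov
    have h2 := Finset.card_union_le (A ∪ A.image γ) (A.image γ.symm)
    have h3 := Finset.card_union_le A (A.image γ)
    have h4 : (A.image γ).card ≤ A.card := Finset.card_image_le
    have h5 : (A.image γ.symm).card ≤ A.card := Finset.card_image_le
    omega
  obtain ⟨A', hA', hA'c⟩ := Finset.exists_subset_card_eq
    (show (γ.support.card + 2) / 3 ≤ A.card by omega)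
  have hs : γ.support.card ≤ k := by
    have h1 := Finset.card_le_univ γ.support
    rwa [Fintype.card_fin] at h1
  obtain ⟨c, hc⟩ : ∃ c, c ∉ A' ∪ A'.image γ := by
    by_contra hcon
    push Not at hcon
    have h1 : (Finset.univ : Finset (Fin k)) ⊆ A' ∪ A'.image γ := fun x _ => hcon x
    have h2 := Finset.card_le_card h1
    rw [Finset.card_univ, Fintype.card_fin] at h2
    have h3 := Finset.card_union_le A' (A'.image γ)
    have h4 : (A'.image γ).card ≤ A'.card := Finset.card_image_le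
    omega
  rw [Finset.mem_union, not_or] at hc
  refine ⟨A', c, fun a ha hga => hd a (hA' ha) (hA' hga), hA'c, hc.1, fun a ha hga => ?_⟩
  exact hc.2 (Finset.mem_image.2 ⟨a, ha, hga⟩)

theorem exists_redundant {k : ℕ} (hk : 10 ≤ k) (γ : Equiv.Perm (Fin k)) :
    ∃ (c : Fin k) (D : Finset (Sym2 (Fin k))), Redundant γ c D := by
  classical
  obtain ⟨A, c, hd, hA, hcA, hcg⟩ := exists_A hk γ
  have hs : γ.support.card ≤ k := by
    have h1 := Finset.card_le_univ γ.support
    rwa [Fintype.card_fin] at h1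
  set X : Fin k → Finset (Fin k) := fun a =>
    Finset.univ.filter (fun x => x ≠ a ∧ x ≠ c ∧ γ x ∉ A ∧ γ x ≠ c) with hX
  set O : Finset (Σ _ : Fin k, Fin k) := A.sigma X with hO
  set D : Finset (Sym2 (Fin k)) := O.image (fun p => s(p.1, p.2)) with hD
  have hXcard : ∀ a, k ≤ (X a).card + (A.card + 3) := by
    intro a
    have h1 : (Finset.univ : Finset (Fin k)) ⊆ X a ∪ (A.image γ.symm ∪ {a, c, γ.symm c}) := by
      intro x _
      rw [hX]
      simp only [Finset.mem_union, Finset.mem_filter, Finset.mem_univ, true_and, Finset.mem_image,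
        Finset.mem_insert, Finset.mem_singleton]
      by_cases h1 : x = a
      · exact Or.inr (Or.inr (Or.inl h1))
      by_cases h2 : x = c
      · exact Or.inr (Or.inr (Or.inr (Or.inl h2)))
      by_cases h3 : γ x ∈ A
      · exact Or.inr (Or.inl ⟨_, h3, by simp⟩)
      by_cases h4 : γ x = c
      · exact Or.inr (Or.inr (Or.inr (Or.inr (by rw [← h4]; simp))))
      exact Or.inl ⟨h1, h2, h3, h4⟩
    have h2 := Finset.card_le_card h1
    rw [Finset.card_univ, Fintype.card_fin] at h2
    have h3 := Finset.card_union_le (X a) (A.image γ.symm ∪ {a, c, γ.symm c})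
    have h4 := Finset.card_union_le (A.image γ.symm) {a, c, γ.symm c}
    have h5 : (A.image γ.symm).card ≤ A.card := Finset.card_image_le
    have h6 : ({a, c, γ.symm c} : Finset (Fin k)).card ≤ 3 := Finset.card_le_three
    omega
  have hOcard : A.card * (k - (A.card + 3)) ≤ O.card := by
    rw [hO, Finset.card_sigma, ← smul_eq_mul]
    apply Finset.card_nsmul_le_sum
    intro a _
    have := hXcard a
    omega
  have hDcard : O.card ≤ 2 * D.card := by
    rw [hD]
    apply Finset.card_le_mul_card_image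
    intro e _
    induction e using Sym2.ind with
    | _ u v =>
      have h1 : O.filter (fun p => s(p.1, p.2) = s(u, v)) ⊆ {⟨u, v⟩, ⟨v, u⟩} := by
        intro p hp
        rw [Finset.mem_filter] at hp
        obtain ⟨p1, p2⟩ := p
        have h2 := hp.2
        simp only [Sym2.eq_iff] at h2
        rcases h2 with ⟨rfl, rfl⟩ | ⟨rfl, rfl⟩ <;> simp
      exact (Finset.card_le_card h1).trans Finset.card_le_two
  have hmem : ∀ e ∈ D, ∃ a x, e = s(a, x) ∧ a ∈ A ∧ x ≠ a ∧ x ≠ c ∧ γ x ∉ A ∧ γ x ≠ c := by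
    intro e he
    rw [hD, Finset.mem_image] at he
    obtain ⟨⟨a, x⟩, hp, rfl⟩ := he
    rw [hO, Finset.mem_sigma, hX, Finset.mem_filter] at hp
    exact ⟨a, x, rfl, hp.1, hp.2.2⟩
  refine ⟨c, D, ⟨?_, ?_, ?_, ?_, ?_⟩⟩
  · intro e he
    obtain ⟨a, x, rfl, _, h2, _⟩ := hmem e he
    rw [Sym2.mk_isDiag_iff]
    exact fun h => h2 h.symm
  · intro e he
    obtain ⟨a, x, rfl, h1, _, h3, _⟩ := hmem e he
    rw [Sym2.mem_iff, not_or]
    exact ⟨fun h => hcA (h ▸ h1), fun h => h3 h.symm⟩
  · intro e he he'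
    obtain ⟨a, x, rfl, h1, _, _, h4, _⟩ := hmem e he
    obtain ⟨b, y, h5, h6, _⟩ := hmem _ he'
    rw [Sym2.map_mk, Sym2.eq_iff] at h5
    rcases h5 with ⟨h5, _⟩ | ⟨_, h5⟩
    · exact hd a h1 (h5 ▸ h6)
    · exact h4 (h5 ▸ h6)
  · intro e he
    obtain ⟨a, x, rfl, h1, _, _, _, h5⟩ := hmem e he
    rw [Sym2.map_mk, Sym2.mem_iff, not_or]
    exact ⟨fun h => hcg a h1 h.symm, fun h => h5 h.symm⟩
  · have h1 : γ.support.card ≤ 3 * A.card := by omega
    have h2 : 2 * k - 11 ≤ 3 * (k - (A.card + 3)) := by omega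
    have h3 := Nat.mul_le_mul h1 h2
    nlinarith [hOcard, hDcard, h3]

theorem even_inv_determined {k : ℕ} {γ : Equiv.Perm (Fin k)} {c : Fin k}
    {D : Finset (Sym2 (Fin k))} (h : Redundant γ c D) {F F' : SimpleGraph (Fin k)}
    (hF : IsEven F) (hF' : IsEven F') (hi : Inv γ F) (hi' : Inv γ F')
    (hag : ∀ e : Sym2 (Fin k), e ∉ D → c ∉ e → (e ∈ F.edgeSet ↔ e ∈ F'.edgeSet)) : F = F' := by
  classical
  have h1 : ∀ x y, x ≠ c → y ≠ c → (F.Adj x y ↔ F'.Adj x y) := by
    intro x y hx hy
    by_cases hD : s(x, y) ∈ D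
    · have h2 := hag (s(x, y).map γ) (h.shift _ hD) (h.shiftc _ hD)
      rw [Sym2.map_mk, SimpleGraph.mem_edgeSet, SimpleGraph.mem_edgeSet, hi x y, hi' x y] at h2
      exact h2
    · have h2 := hag s(x, y) hD (by
        rw [Sym2.mem_iff, not_or]
        exact ⟨fun h => hx h.symm, fun h => hy h.symm⟩)
      rwa [SimpleGraph.mem_edgeSet, SimpleGraph.mem_edgeSet] at h2
  have key : ∀ G G' : SimpleGraph (Fin k), IsEven G → IsEven G' →
      (∀ x y, x ≠ c → y ≠ c → (G.Adj x y ↔ G'.Adj x y)) → ∀ x, x ≠ c → G.Adj x c → G'.Adj x c := by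
    intro G G' hG hG' hGG x hx hadj
    by_contra hcon
    have h2 : G.neighborSet x = insert c (G'.neighborSet x) := by
      ext y
      rw [Set.mem_insert_iff, SimpleGraph.mem_neighborSet, SimpleGraph.mem_neighborSet]
      by_cases hy : y = c
      · subst hy
        exact ⟨fun _ => Or.inl rfl, fun _ => hadj⟩
      · rw [hGG x y hx hy]
        exact ⟨Or.inr, fun h => h.resolve_left hy⟩
    have h3 : (G.neighborSet x).ncard = (G'.neighborSet x).ncard + 1 := by
      rw [h2]
      exact Set.ncard_insert_of_notMem hcon (Set.toFinite _)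
    have h4 := hG x
    have h5 := hG' x
    rw [h3] at h4
    exact (Nat.even_add_one.1 h4) h5
  have h2 : ∀ x, x ≠ c → (F.Adj x c ↔ F'.Adj x c) := fun x hx =>
    ⟨key F F' hF hF' h1 x hx, key F' F hF' hF (fun x y hx hy => (h1 x y hx hy).symm) x hx⟩
  ext x y
  by_cases hx : x = c
  · by_cases hy : y = c
    · subst hx
      subst hy
      exact ⟨fun h => absurd h (F.irrefl), fun h => absurd h (F'.irrefl)⟩
    · subst hx
      rw [F.adj_comm, F'.adj_comm]
      exact h2 y hy
  · by_cases hy : y = c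
    · subst hy
      exact h2 x hx
    · exact h1 x y hx hy

end Pool.Agent.H60.GU
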