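import Pool.Agent.H60.GU.EvenExt
import Pool.Agent.H60.GU.Burn

/-!
# Lower: three easy counts

* `numCls_lower`: `burn (fun _ => True)`; the term `γ = 1` is the number of all graphs on `Fin n`,
  which is at least `2^(n(n-1)/2)` (inject the subsets of the non-diagonal pairs by
  `SimpleGraph.fromEdgeSet`; `Sym2.card_subtype_not_diag`), the other terms are `≥ 0`; and
  `numP (fun _ => True) = numCls n`.
* `numCls_le`: choose for every class `c` counted by `numP IsEven` an even representative `F_c`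
  (exists); the map `(c, v) ↦ cls (F_c - v)` from `{c} × Fin (n+1)` to `Cls n` is surjective:
  a class `cls G` has the even extension `F` of `even_ext`, `F ≃g F_c` for `c = cls F`, and the
  isomorphism `φ` gives `F - last ≃g F_c - φ(last)`.
* `left_le`: the same map for the even graphs that are not asymmetric; if `cls G` is in the
  set on the left then its even extension `F` is not asymmetric, and the representative `F_c` of
  `cls F` is even and not asymmetric too.
About 110 lines.
-/

namespace Pool.Agent.H60.GU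

/-- The classes not in the deck of an asymmetric even graph. -/
def Left (n : ℕ) : Type :=
  {c : Cls n // ¬ ∃ F : SimpleGraph (Fin (n + 1)),
    IsEven F ∧ Asym F ∧ ∃ v, cls (F.comap (Fin.succAbove v)) = c}

/-- The isomorphism classes of asymmetric even graphs. -/
def AE (k : ℕ) : Type := {c : Cls k // ∃ F, cls F = c ∧ IsEven F ∧ Asym F}

/-- Deleting corresponding vertices of isomorphic graphs gives isomorphic graphs. -/
theorem cls_delete {k : ℕ} {F F' : SimpleGraph (Fin (k + 1))} (φ : F ≃g F') (v : Fin (k + 1)) :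
    cls (F.comap v.succAbove) = cls (F'.comap (φ v).succAbove) := by
  have hsub : ∀ x : Fin (k + 1), x ≠ v ↔ φ.toEquiv x ≠ φ v := by
    intro x
    exact (φ.toEquiv.injective.ne_iff (x := x) (y := v)).symm
  let f : {x : Fin (k + 1) // x ≠ v} ≃ {x : Fin (k + 1) // x ≠ φ v} :=
    φ.toEquiv.subtypeEquiv hsub
  let e : Fin k ≃ Fin k := (finSuccAboveEquiv v).trans (f.trans (finSuccAboveEquiv (φ v)).symm)
  have he : ∀ a, (φ v).succAbove (e a) = φ (v.succAbove a) := by
    intro a
    have h1 : finSuccAboveEquiv (φ v) (e a) = f (finSuccAboveEquiv v a) := by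
      show finSuccAboveEquiv (φ v) ((finSuccAboveEquiv (φ v)).symm (f (finSuccAboveEquiv v a))) = _
      rw [Equiv.apply_symm_apply]
    exact congrArg Subtype.val h1
  rw [cls_eq]
  refine ⟨⟨e, ?_⟩⟩
  intro a b
  rw [SimpleGraph.comap_adj, SimpleGraph.comap_adj, he, he]
  exact φ.map_adj_iff

private theorem low_deck {n : ℕ} (P : SimpleGraph (Fin (n + 1)) → Prop) (T : Cls n → Prop)
    (h : ∀ c, T c → ∃ F, P F ∧ ∃ v : Fin (n + 1), cls (F.comap (Fin.succAbove v)) = c) :
    Nat.card {c : Cls n // T c} ≤ (n + 1) * numP P := by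
  classical
  let D := {c : Cls (n + 1) // ∃ F, cls F = c ∧ P F}
  let R : D → SimpleGraph (Fin (n + 1)) := fun c => c.2.choose
  have hR : ∀ c : D, cls (R c) = c.1 := fun c => c.2.choose_spec.1
  have hex : ∀ c : {c : Cls n // T c}, ∃ p : D × Fin (n + 1),
      cls ((R p.1).comap (Fin.succAbove p.2)) = c.1 := by
    rintro ⟨c, hc⟩
    obtain ⟨F, hF, v, hv⟩ := h c hc
    have h1 : cls F = cls (R ⟨cls F, F, rfl, hF⟩) := (hR ⟨cls F, F, rfl, hF⟩).symm
    obtain ⟨φ⟩ := cls_eq.1 h1
    refine ⟨(⟨cls F, F, rfl, hF⟩, φ v), ?_⟩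
    show cls ((R ⟨cls F, F, rfl, hF⟩).comap (Fin.succAbove (φ v))) = c
    rw [← cls_delete φ v, hv]
  choose m hm using hex
  have hinj : Function.Injective m := by
    intro a b hab
    apply Subtype.ext
    rw [← hm a, ← hm b, hab]
  have h2 := Nat.card_le_card_of_injective m hinj
  rw [Nat.card_prod, Nat.card_fin, mul_comm] at h2
  exact h2

private theorem low_graphs (n : ℕ) : 2 ^ (n * (n - 1) / 2) ≤ Nat.card (SimpleGraph (Fin n)) := by
  classical
  have h1 : Nat.card (Set {a : Sym2 (Fin n) // ¬ a.IsDiag}) = 2 ^ (n * (n - 1) / 2) := by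
    rw [Nat.card_eq_fintype_card, Fintype.card_set, Sym2.card_subtype_not_diag, Fintype.card_fin,
      Nat.choose_two_right]
  rw [← h1]
  refine Nat.card_le_card_of_injective
    (fun s : Set {a : Sym2 (Fin n) // ¬ a.IsDiag} =>
      SimpleGraph.fromEdgeSet (Subtype.val '' s)) ?_
  intro s t hst
  have h2 : ∀ s : Set {a : Sym2 (Fin n) // ¬ a.IsDiag},
      (SimpleGraph.fromEdgeSet (Subtype.val '' s)).edgeSet = Subtype.val '' s := by
    intro s
    rw [SimpleGraph.edgeSet_fromEdgeSet]
    ext e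
    constructor
    · rintro ⟨h, -⟩
      exact h
    · intro h
      refine ⟨h, ?_⟩
      obtain ⟨a, -, rfl⟩ := h
      exact a.2
  have h3 : (Subtype.val '' s : Set (Sym2 (Fin n))) = Subtype.val '' t := by
    rw [← h2 s, ← h2 t]
    exact congrArg SimpleGraph.edgeSet hst
  exact Subtype.val_injective.image_injective h3

theorem numCls_lower (n : ℕ) : 2 ^ (n * (n - 1) / 2) ≤ n.factorial * numCls n := by
  have h1 : numP (fun _ : SimpleGraph (Fin n) => True) = numCls n := by
    unfold numP numCls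
    refine Nat.card_congr (Equiv.subtypeUnivEquiv ?_)
    intro c
    obtain ⟨F, hF⟩ := cls_surj c
    exact ⟨F, hF, trivial⟩
  have h2 := burn (fun _ : SimpleGraph (Fin n) => True) (fun _ _ _ _ => trivial)
  rw [h1] at h2
  rw [h2]
  refine le_trans ?_ (Finset.single_le_sum (f := fun γ : Equiv.Perm (Fin n) =>
    Nat.card {F : SimpleGraph (Fin n) // True ∧ Inv γ F}) (fun _ _ => Nat.zero_le _)
    (Finset.mem_univ 1))
  refine (low_graphs n).trans (le_of_eq ?_)
  refine (Nat.card_congr (Equiv.subtypeUnivEquiv ?_)).symm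
  intro F
  exact ⟨trivial, fun a b => Iff.rfl⟩

theorem numCls_le (n : ℕ) : numCls n ≤ (n + 1) * numP (IsEven (k := n + 1)) := by
  have h1 := low_deck (IsEven (k := n + 1)) (fun _ : Cls n => True) (by
    intro c _
    obtain ⟨G, rfl⟩ := cls_surj c
    obtain ⟨F, hF, hFG⟩ := even_ext G
    exact ⟨F, hF, Fin.last n, by rw [hFG]⟩)
  refine le_trans (le_of_eq ?_) h1
  unfold numCls
  exact (Nat.card_congr (Equiv.subtypeUnivEquiv (fun _ => trivial))).symm

theorem left_le (n : ℕ) : Nat.card (Left n) ≤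
    (n + 1) * numP (fun F : SimpleGraph (Fin (n + 1)) => IsEven F ∧ ¬ Asym F) := by
  refine low_deck (fun F : SimpleGraph (Fin (n + 1)) => IsEven F ∧ ¬ Asym F)
    (fun c : Cls n => ¬ ∃ F : SimpleGraph (Fin (n + 1)),
      IsEven F ∧ Asym F ∧ ∃ v, cls (F.comap (Fin.succAbove v)) = c) ?_
  intro c hc
  obtain ⟨G, rfl⟩ := cls_surj c
  obtain ⟨F, hF, hFG⟩ := even_ext G
  have h1 : cls (F.comap (Fin.succAbove (Fin.last n))) = cls G := by rw [hFG]
  exact ⟨F, ⟨hF, fun hA => hc ⟨F, hF, hA, Fin.last n, h1⟩⟩, Fin.last n, h1⟩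

end Pool.Agent.H60.GU
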