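import Pool.Agent.H60.GU.Defs

/-!
# Numeric: the error terms are small

`xx k = 2^(-(2k-11)/18)`, so `k² xx k → 0`.  For `k² x ≤ 1`, `(1 + k x)^k ≤ exp (k² x) ≤ 1 + 2 k² x`
(`Real.add_one_le_exp`; `Real.exp_bound'`/`Real.abs_exp_sub_one_le`; or convexity).
With `M := 2^((m+1)m/2) ≤ (m+1)! L`, and `(m+1)m/2 = m(m-1)/2 + m`:
* `m! a ≤ 2^(m(m-1)/2) · 2 = 2 · 2^(-m) M ≤ 2 · 2^(-m) (m+1)! L`, so `a ≤ 2 (m+1) 2^(-m) L`;
* `(m+1)! b ≤ 2 M · 2 (m+2)² xx (m+2) ≤ 4 (m+2)² xx (m+2) (m+1)! L`, so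
  `b ≤ 4 (m+2)² xx (m+2) L`.
So `2m a + 2m b ≤ (4 m (m+1) 2^(-m) + 8 m (m+2)² xx (m+2)) L`, and
`xx (m+2) = 2^(-(2m-7)/18) = 2^(7/18) 2^(-m/9)`; the bracket is at most `2^(-(m+1)/10)` for
large `m` because `m³ 2^(-m/90) → 0` (e.g. `tendsto_pow_const_mul_const_pow_of_abs_lt_one` with
`r = 2^(-1/90)`, or `isLittleO_pow_const_const_pow_of_one_lt`).
`2(m+1) ≤ L` for large `m`: `L ≥ 2^((m+1)m/2)/(m+1)! ≥ 2^((m+1)m/2)/(m+1)^(m+1)` and
`(m+1)^2 ≤ 2^(m/4)` for large `m`, so `(m+1)^(m+1) ≤ 2^((m+1)m/8)`, etc.  About 130 lines.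
-/

namespace Pool.Agent.H60.GU

private theorem pow_bound {k : ℕ} {x : ℝ} (hx : 0 ≤ x) (h : (k : ℝ) ^ 2 * x ≤ 1) :
    (1 + k * x) ^ k ≤ 1 + 2 * ((k : ℝ) ^ 2 * x) := by
  have h1 : (1 + (k : ℝ) * x) ≤ Real.exp (k * x) := by
    have := Real.add_one_le_exp ((k : ℝ) * x)
    linarith
  have h2 : (1 + (k : ℝ) * x) ^ k ≤ Real.exp (k * x) ^ k :=
    pow_le_pow_left₀ (by positivity) h1 k
  have h3 : Real.exp ((k : ℝ) * x) ^ k = Real.exp ((k : ℝ) ^ 2 * x) := by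
    rw [← Real.exp_nat_mul]
    congr 1
    ring
  have h4 : 0 ≤ (k : ℝ) ^ 2 * x := by positivity
  have h5 := Real.abs_exp_sub_one_le (x := (k : ℝ) ^ 2 * x) (by rw [abs_of_nonneg h4]; exact h)
  rw [abs_of_nonneg h4] at h5
  have h6 := le_abs_self (Real.exp ((k : ℝ) ^ 2 * x) - 1)
  rw [h3] at h2
  linarith

private theorem fact_bound : ∀ m : ℕ, 5 ≤ m →
    2 * (m + 1) * (m + 1).factorial ≤ 2 ^ ((m + 1) * m / 2) ∧ m + 4 ≤ 2 ^ (m + 1) := by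
  intro m hm
  induction m, hm using Nat.le_induction with
  | base => decide
  | succ m hm ih =>
    obtain ⟨h1, h2⟩ := ih
    have h3 : (m + 1 + 1) * (m + 1) / 2 = (m + 1) * m / 2 + (m + 1) := by
      have h4 : (m + 1 + 1) * (m + 1) = (m + 1) * m + 2 * (m + 1) := by ring
      rw [h4]
      omega
    refine ⟨?_, ?_⟩
    · rw [h3, pow_add, Nat.factorial_succ (m + 1)]
      have h5 : (m + 1 + 1) * (m + 1 + 1) ≤ (m + 1) * 2 ^ (m + 1) := by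
        calc (m + 1 + 1) * (m + 1 + 1) ≤ (m + 1) * (m + 4) := by nlinarith
          _ ≤ (m + 1) * 2 ^ (m + 1) := Nat.mul_le_mul_left _ h2
      calc 2 * (m + 1 + 1) * ((m + 1 + 1) * (m + 1).factorial)
          = 2 * (m + 1).factorial * ((m + 1 + 1) * (m + 1 + 1)) := by ring
        _ ≤ 2 * (m + 1).factorial * ((m + 1) * 2 ^ (m + 1)) := Nat.mul_le_mul_left _ h5
        _ = (2 * (m + 1) * (m + 1).factorial) * 2 ^ (m + 1) := by ring
        _ ≤ 2 ^ ((m + 1) * m / 2) * 2 ^ (m + 1) := Nat.mul_le_mul_right _ h1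
    · rw [pow_succ 2 (m + 1)]
      omega

theorem numeric : ∃ n₀ : ℕ, ∀ m : ℕ, n₀ ≤ m → ∀ a b L : ℝ, 0 ≤ a → 0 ≤ b → 0 ≤ L →
    (2 : ℝ) ^ ((m + 1) * m / 2) ≤ ((m + 1).factorial : ℝ) * L →
    (m.factorial : ℝ) * a ≤ 2 ^ (m * (m - 1) / 2) * (1 + (m + 1 : ℕ) * xx (m + 1)) ^ (m + 1) →
    ((m + 1).factorial : ℝ) * b ≤
      2 * 2 ^ ((m + 1) * m / 2) * ((1 + (m + 2 : ℕ) * xx (m + 2)) ^ (m + 2) - 1) →
    2 * m * a + 2 * m * b ≤ (2 : ℝ) ^ (-(((m : ℝ) + 1) / 10)) * L ∧ 2 * ((m : ℝ) + 1) ≤ L := by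
  set r : ℝ := (2 : ℝ) ^ (-(1 / 90 : ℝ)) with hr
  have hr0 : 0 < r := Real.rpow_pos_of_pos (by norm_num) _
  have hr1 : r < 1 := Real.rpow_lt_one_of_one_lt_of_neg (by norm_num) (by norm_num)
  have htend : Filter.Tendsto (fun n : ℕ => (n : ℝ) ^ 3 * r ^ n) Filter.atTop (nhds 0) :=
    tendsto_pow_const_mul_const_pow_of_abs_lt_one 3 (by rw [abs_of_pos hr0]; exact hr1)
  have hev : ∀ᶠ n : ℕ in Filter.atTop, (n : ℝ) ^ 3 * r ^ n < 1 / 288 :=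
    htend.eventually (gt_mem_nhds (by norm_num))
  obtain ⟨n₁, hn₁⟩ := Filter.eventually_atTop.1 hev
  refine ⟨max n₁ 5, ?_⟩
  intro m hm a b L ha hb hL H1 H2 H3
  have hm1 : n₁ ≤ m := (le_max_left _ _).trans hm
  have hm5 : 5 ≤ m := (le_max_right _ _).trans hm
  have hmR : (5 : ℝ) ≤ (m : ℝ) := by exact_mod_cast hm5
  have hq := hn₁ m hm1
  set q : ℝ := r ^ m with hqdef
  have hq0 : 0 < q := pow_pos hr0 m
  have hqr : (2 : ℝ) * q = (2 : ℝ) ^ (1 - (m : ℝ) / 90) := by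
    rw [hqdef, hr, ← Real.rpow_natCast, ← Real.rpow_mul (by norm_num), sub_eq_add_neg,
      Real.rpow_add (by norm_num), Real.rpow_one]
    congr 2
    ring
  have hxx1 : xx (m + 1) ≤ 2 * q := by
    rw [hqr]
    unfold xx
    apply Real.rpow_le_rpow_of_exponent_le (by norm_num)
    push_cast
    linarith
  have hxx2 : xx (m + 2) ≤ 2 * q := by
    rw [hqr]
    unfold xx
    apply Real.rpow_le_rpow_of_exponent_le (by norm_num)
    push_cast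
    linarith
  set W : ℝ := (2 : ℝ) ^ (((m : ℝ) + 1) / 10) with hW
  have hW0 : 0 < W := Real.rpow_pos_of_pos (by norm_num) _
  have hxxW : xx (m + 2) * W ≤ 2 * q := by
    rw [hqr, hW]
    unfold xx
    rw [← Real.rpow_add (by norm_num)]
    apply Real.rpow_le_rpow_of_exponent_le (by norm_num)
    push_cast
    linarith
  set t : ℝ := (2 : ℝ) ^ (-(m : ℝ)) with ht
  have ht0 : 0 < t := Real.rpow_pos_of_pos (by norm_num) _
  have htW : t * W ≤ 2 * q := by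
    rw [hqr, hW, ht, ← Real.rpow_add (by norm_num)]
    apply Real.rpow_le_rpow_of_exponent_le (by norm_num)
    linarith
  have ht2 : (2 : ℝ) ^ m * t = 1 := by
    rw [ht, ← Real.rpow_natCast, ← Real.rpow_add (by norm_num), add_neg_cancel, Real.rpow_zero]
  have hxp1 : 0 ≤ xx (m + 1) := by
    unfold xx
    positivity
  have hxp2 : 0 ≤ xx (m + 2) := by
    unfold xx
    positivity
  have hm3 : 0 < (m : ℝ) ^ 3 := by positivity
  have hcube : (m : ℝ) ^ 3 * q < 1 / 288 := hq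
  have hs1 : ((m + 1 : ℕ) : ℝ) ^ 2 ≤ 4 * (m : ℝ) ^ 3 := by
    push_cast
    nlinarith [sq_nonneg ((m : ℝ) - 1), mul_nonneg (sq_nonneg (m : ℝ)) (sub_nonneg.2 hmR)]
  have hs2 : ((m + 2 : ℕ) : ℝ) ^ 2 ≤ 9 * (m : ℝ) ^ 3 := by
    push_cast
    nlinarith [sq_nonneg ((m : ℝ) - 1), mul_nonneg (sq_nonneg (m : ℝ)) (sub_nonneg.2 hmR)]
  have hk1 : ((m + 1 : ℕ) : ℝ) ^ 2 * xx (m + 1) ≤ 1 := by
    calc ((m + 1 : ℕ) : ℝ) ^ 2 * xx (m + 1) ≤ (4 * (m : ℝ) ^ 3) * (2 * q) :=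
          mul_le_mul hs1 hxx1 hxp1 (by positivity)
      _ = 8 * ((m : ℝ) ^ 3 * q) := by ring
      _ ≤ 1 := by linarith
  have hk2 : ((m + 2 : ℕ) : ℝ) ^ 2 * xx (m + 2) ≤ 1 := by
    calc ((m + 2 : ℕ) : ℝ) ^ 2 * xx (m + 2) ≤ (9 * (m : ℝ) ^ 3) * (2 * q) :=
          mul_le_mul hs2 hxx2 hxp2 (by positivity)
      _ = 18 * ((m : ℝ) ^ 3 * q) := by ring
      _ ≤ 1 := by linarith
  have hp1 := pow_bound hxp1 hk1
  have hp2 := pow_bound hxp2 hk2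
  have hfac0 : (0 : ℝ) < (m.factorial : ℝ) := by exact_mod_cast m.factorial_pos
  have hfac1 : (0 : ℝ) < ((m + 1).factorial : ℝ) := by exact_mod_cast (m + 1).factorial_pos
  have hfs : ((m + 1).factorial : ℝ) = ((m : ℝ) + 1) * (m.factorial : ℝ) := by
    rw [Nat.factorial_succ]
    push_cast
    ring
  have hexp : (m + 1) * m / 2 = m * (m - 1) / 2 + m := by
    have h4 : (m + 1) * m = m * (m - 1) + 2 * m := by
      obtain ⟨j, rfl⟩ : ∃ j, m = j + 1 := ⟨m - 1, by omega⟩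
      simp only [Nat.add_sub_cancel]
      ring
    rw [h4]
    omega
  have hM : (2 : ℝ) ^ ((m + 1) * m / 2) = 2 ^ (m * (m - 1) / 2) * 2 ^ m := by
    rw [hexp, pow_add]
  have hM'0 : (0 : ℝ) < 2 ^ (m * (m - 1) / 2) := by positivity
  have hM0 : (0 : ℝ) < 2 ^ ((m + 1) * m / 2) := by positivity
  have hA : a ≤ 3 * ((m : ℝ) + 1) * t * L := by
    have h5 : (1 + ((m + 1 : ℕ) : ℝ) * xx (m + 1)) ^ (m + 1) ≤ 3 := by linarith
    have h6 : (m.factorial : ℝ) * a ≤ 2 ^ (m * (m - 1) / 2) * 3 :=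
      H2.trans (mul_le_mul_of_nonneg_left h5 hM'0.le)
    have h7 : (m.factorial : ℝ) * a ≤ (m.factorial : ℝ) * (3 * ((m : ℝ) + 1) * t * L) := by
      calc (m.factorial : ℝ) * a ≤ 2 ^ (m * (m - 1) / 2) * 3 := h6
        _ = 3 * (2 ^ (m * (m - 1) / 2) * (2 ^ m * t)) := by rw [ht2]; ring
        _ = 3 * t * 2 ^ ((m + 1) * m / 2) := by rw [hM]; ring
        _ ≤ 3 * t * (((m + 1).factorial : ℝ) * L) :=
            mul_le_mul_of_nonneg_left H1 (by positivity)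
        _ = (m.factorial : ℝ) * (3 * ((m : ℝ) + 1) * t * L) := by rw [hfs]; ring
    exact le_of_mul_le_mul_left h7 hfac0
  have hB : b ≤ 4 * ((((m + 2 : ℕ) : ℝ) ^ 2) * xx (m + 2)) * L := by
    have h5 : (1 + ((m + 2 : ℕ) : ℝ) * xx (m + 2)) ^ (m + 2) - 1 ≤
        2 * (((m + 2 : ℕ) : ℝ) ^ 2 * xx (m + 2)) := by linarith
    have h6 : ((m + 1).factorial : ℝ) * b ≤
        ((m + 1).factorial : ℝ) * (4 * ((((m + 2 : ℕ) : ℝ) ^ 2) * xx (m + 2)) * L) := by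
      calc ((m + 1).factorial : ℝ) * b
          ≤ 2 * 2 ^ ((m + 1) * m / 2) * ((1 + ((m + 2 : ℕ) : ℝ) * xx (m + 2)) ^ (m + 2) - 1) := H3
        _ ≤ 2 * 2 ^ ((m + 1) * m / 2) * (2 * (((m + 2 : ℕ) : ℝ) ^ 2 * xx (m + 2))) :=
            mul_le_mul_of_nonneg_left h5 (by positivity)
        _ = 4 * ((((m + 2 : ℕ) : ℝ) ^ 2) * xx (m + 2)) * 2 ^ ((m + 1) * m / 2) := by ring
        _ ≤ 4 * ((((m + 2 : ℕ) : ℝ) ^ 2) * xx (m + 2)) * (((m + 1).factorial : ℝ) * L) :=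
            mul_le_mul_of_nonneg_left H1 (by positivity)
        _ = ((m + 1).factorial : ℝ) * (4 * ((((m + 2 : ℕ) : ℝ) ^ 2) * xx (m + 2)) * L) := by ring
    exact le_of_mul_le_mul_left h6 hfac1
  refine ⟨?_, ?_⟩
  · set E : ℝ := (2 : ℝ) ^ (-(((m : ℝ) + 1) / 10)) with hE
    have hE0 : 0 < E := Real.rpow_pos_of_pos (by norm_num) _
    have hEW : E * W = 1 := by
      rw [hE, hW, ← Real.rpow_add (by norm_num), neg_add_cancel, Real.rpow_zero]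
    set B : ℝ := 6 * (m : ℝ) * ((m : ℝ) + 1) * t +
      8 * (m : ℝ) * (((m + 2 : ℕ) : ℝ) ^ 2 * xx (m + 2)) with hBdef
    have h1 : 2 * m * a + 2 * m * b ≤ B * L := by
      have h2 : 2 * (m : ℝ) * a ≤ 2 * m * (3 * ((m : ℝ) + 1) * t * L) :=
        mul_le_mul_of_nonneg_left hA (by positivity)
      have h3 : 2 * (m : ℝ) * b ≤ 2 * m * (4 * ((((m + 2 : ℕ) : ℝ) ^ 2) * xx (m + 2)) * L) :=
        mul_le_mul_of_nonneg_left hB (by positivity)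
      calc 2 * (m : ℝ) * a + 2 * m * b
          ≤ 2 * m * (3 * ((m : ℝ) + 1) * t * L) +
            2 * m * (4 * ((((m + 2 : ℕ) : ℝ) ^ 2) * xx (m + 2)) * L) := add_le_add h2 h3
        _ = B * L := by rw [hBdef]; ring
    have h4 : B * W ≤ E * W := by
      rw [hEW]
      have h5 : 6 * (m : ℝ) * ((m : ℝ) + 1) * (t * W) ≤ 12 * (m : ℝ) ^ 2 * (2 * q) := by
        apply mul_le_mul _ htW (by positivity) (by positivity)
        nlinarith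
      have h6 : 8 * (m : ℝ) * (((m + 2 : ℕ) : ℝ) ^ 2) * (xx (m + 2) * W) ≤
          72 * (m : ℝ) ^ 3 * (2 * q) := by
        apply mul_le_mul _ hxxW (by positivity) (by positivity)
        push_cast
        have h7 : ((m : ℝ) + 2) ^ 2 ≤ 9 * (m : ℝ) ^ 2 := by nlinarith
        nlinarith
      have h8 : (m : ℝ) ^ 2 * q ≤ (m : ℝ) ^ 3 * q := by
        apply mul_le_mul_of_nonneg_right _ hq0.le
        nlinarith [sq_nonneg (m : ℝ)]
      calc B * W = 6 * (m : ℝ) * ((m : ℝ) + 1) * (t * W) +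
            8 * (m : ℝ) * (((m + 2 : ℕ) : ℝ) ^ 2) * (xx (m + 2) * W) := by rw [hBdef]; ring
        _ ≤ 12 * (m : ℝ) ^ 2 * (2 * q) + 72 * (m : ℝ) ^ 3 * (2 * q) := add_le_add h5 h6
        _ = 24 * ((m : ℝ) ^ 2 * q) + 144 * ((m : ℝ) ^ 3 * q) := by ring
        _ ≤ 1 := by linarith
    have h9 : B ≤ E := le_of_mul_le_mul_right h4 hW0
    exact h1.trans (mul_le_mul_of_nonneg_right h9 hL)
  · have h1 : ((2 * (m + 1) * (m + 1).factorial : ℕ) : ℝ) ≤ ((2 ^ ((m + 1) * m / 2) : ℕ) : ℝ) := by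
      exact_mod_cast (fact_bound m hm5).1
    push_cast at h1
    have h2 : ((m + 1).factorial : ℝ) * (2 * ((m : ℝ) + 1)) ≤ ((m + 1).factorial : ℝ) * L := by
      calc ((m + 1).factorial : ℝ) * (2 * ((m : ℝ) + 1))
          = 2 * ((m : ℝ) + 1) * ((m + 1).factorial : ℝ) := by ring
        _ ≤ 2 ^ ((m + 1) * m / 2) := h1
        _ ≤ ((m + 1).factorial : ℝ) * L := H1
    exact le_of_mul_le_mul_left h2 hfac1

end Pool.Agent.H60.GU
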