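import Mathlib

/-!
# Once: a surjection that is almost a bijection hits most points exactly once

`|α| = ∑_b |f⁻¹(b)|`, every fibre has at least one element, and at least two when `b` has not
exactly one preimage: `|α| + |U| ≥ 2|β|`.  Or: the map `α ⊕ U → β ⊕ β` ... (choose a section
`g` of `f`; `β ⊕ {b ∉ U} → α` injective, sending `b ↦ g b` and `b ∉ U` to a second preimage).
About 30 lines.
-/

namespace Pool.Agent.H60.GU

theorem once {α β : Type*} [Finite α] (f : α → β) (hf : Function.Surjective f) :
    2 * Nat.card β ≤ Nat.card α + Nat.card {b : β // ∃! a, f a = b} := by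
  classical
  have : Finite β := Finite.of_surjective f hf
  choose g hg using hf
  have h2 : ∀ b : {b : β // ¬ ∃! a, f a = b}, ∃ a, f a = b.1 ∧ a ≠ g b.1 := by
    rintro ⟨b, hb⟩
    by_contra hcon
    push Not at hcon
    exact hb ⟨g b, hg b, fun y hy => hcon y hy⟩
  choose k hk hk' using h2
  have h1 : Nat.card (β ⊕ {b : β // ¬ ∃! a, f a = b}) ≤ Nat.card α := by
    refine Nat.card_le_card_of_injective (Sum.elim g k) ?_
    rintro (b | b) (c | c) h
    · simp only [Sum.elim_inl] at h
      have := congrArg f h
      rw [hg, hg] at this
      rw [this]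
    · simp only [Sum.elim_inl, Sum.elim_inr] at h
      have := congrArg f h
      rw [hg, hk] at this
      exact absurd (this ▸ h).symm (hk' c)
    · simp only [Sum.elim_inl, Sum.elim_inr] at h
      have := congrArg f h
      rw [hg, hk] at this
      exact absurd (this ▸ h) (hk' b)
    · simp only [Sum.elim_inr] at h
      have := congrArg f h
      rw [hk, hk] at this
      rw [Subtype.ext this]
  have h3 : Nat.card {b : β // ∃! a, f a = b} + Nat.card {b : β // ¬ ∃! a, f a = b} =
      Nat.card β := by
    rw [← Nat.card_sum]
    exact Nat.card_congr (Equiv.sumCompl _)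
  rw [Nat.card_sum] at h1
  omega

end Pool.Agent.H60.GU
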