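import Pool.Agent.H60.GU.Realise
import Pool.Agent.H60.GU.CountSym
import Pool.Agent.H60.GU.Assembly
import Pool.Agent.H60.GU.Once
import Pool.Agent.H60.GU.Numeric

/-! # Main: near graph universal cycles -/

namespace Pool.Agent.H60.GU

theorem main : ∃ n₀ : ℕ, ∀ n : ℕ, n₀ ≤ n → ∃ N : ℕ, n ≤ N ∧
    (N : ℝ) ≤ (1 + (2 : ℝ) ^ (-((n : ℝ) / 10))) * numCls n ∧
    ∃ G : SimpleGraph (ZMod N),
      (∀ H : SimpleGraph (Fin n), ∃ i : ZMod N, Nonempty (window G n i ≃g H)) ∧
      (1 - (2 : ℝ) ^ (-((n : ℝ) / 10))) * numCls n ≤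
        (Nat.card {c : Cls n // ∃! i : ZMod N, cls (window G n i) = c} : ℝ) := by
  obtain ⟨n₀, hn₀⟩ := numeric
  refine ⟨n₀ + 20, fun n hn => ?_⟩
  obtain ⟨m, rfl⟩ : ∃ m, n = m + 1 := ⟨n - 1, by omega⟩
  obtain ⟨s, l, hw, hcov, hlen⟩ := assembly m
  have h1 : (2 : ℝ) ^ ((m + 1) * m / 2) ≤ ((m + 1).factorial : ℝ) * (numCls (m + 1) : ℝ) := by
    have := numCls_lower (m + 1)
    simp only [Nat.add_sub_cancel] at this
    exact_mod_cast this
  have h2 : (m.factorial : ℝ) * (numCls m : ℝ) ≤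
      2 ^ (m * (m - 1) / 2) * (1 + (m + 1 : ℕ) * xx (m + 1)) ^ (m + 1) := by
    have ha : (numCls m : ℝ) ≤ (m + 1 : ℝ) * (numP (IsEven (k := m + 1)) : ℝ) := by
      exact_mod_cast numCls_le m
    have hb := count_even (k := m + 1) (by omega)
    have hc : (m + 1 - 1) * (m + 1 - 2) / 2 = m * (m - 1) / 2 := by
      congr 1
    rw [hc] at hb
    refine le_trans ?_ hb
    calc (m.factorial : ℝ) * (numCls m : ℝ)
        ≤ (m.factorial : ℝ) * ((m + 1 : ℝ) * (numP (IsEven (k := m + 1)) : ℝ)) := by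
          gcongr
      _ = ((m + 1).factorial : ℝ) * (numP (IsEven (k := m + 1)) : ℝ) := by
          rw [Nat.factorial_succ]; push_cast; ring
  have h3 : ((m + 1).factorial : ℝ) * (Nat.card (Left (m + 1)) : ℝ) ≤
      2 * 2 ^ ((m + 1) * m / 2) * ((1 + (m + 2 : ℕ) * xx (m + 2)) ^ (m + 2) - 1) := by
    have ha : (Nat.card (Left (m + 1)) : ℝ) ≤ (m + 2 : ℝ) *
        (numP (fun F : SimpleGraph (Fin (m + 1 + 1)) => IsEven F ∧ ¬ Asym F) : ℝ) := by
      have := left_le (m + 1)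
      have h' : (Nat.card (Left (m + 1)) : ℝ) ≤ ((m + 1 + 1 : ℕ) : ℝ) *
        (numP (fun F : SimpleGraph (Fin (m + 1 + 1)) => IsEven F ∧ ¬ Asym F) : ℝ) := by
        exact_mod_cast this
      refine h'.trans (le_of_eq ?_)
      push_cast; ring
    have hb := count_nonasym (k := m + 2) (by omega)
    have hc : (m + 2 - 1) * (m + 2 - 2) / 2 = (m + 1) * m / 2 := by
      congr 1
    rw [hc] at hb
    refine le_trans ?_ hb
    calc ((m + 1).factorial : ℝ) * (Nat.card (Left (m + 1)) : ℝ)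
        ≤ ((m + 1).factorial : ℝ) * ((m + 2 : ℝ) *
        (numP (fun F : SimpleGraph (Fin (m + 1 + 1)) => IsEven F ∧ ¬ Asym F) : ℝ)) := by
          gcongr
      _ = ((m + 2).factorial : ℝ) *
          (numP (fun F : SimpleGraph (Fin (m + 1 + 1)) => IsEven F ∧ ¬ Asym F) : ℝ) := by
          rw [Nat.factorial_succ (m + 1)]; push_cast; ring
  obtain ⟨h4, h5⟩ := hn₀ m (by omega) (numCls m) (Nat.card (Left (m + 1))) (numCls (m + 1))
    (by positivity) (by positivity) (by positivity) h1 h2 h3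
  have hεeq : (2 : ℝ) ^ (-((((m + 1 : ℕ) : ℝ)) / 10)) = (2 : ℝ) ^ (-(((m : ℝ) + 1) / 10)) := by
    push_cast; rfl
  rw [hεeq]
  set ε : ℝ := (2 : ℝ) ^ (-(((m : ℝ) + 1) / 10)) with hε
  -- the list covers all classes, so it is long
  have hmem : ∀ c : Cls (m + 1), ∃ i : Fin l.length, cls (l.get i) = c := by
    intro c
    obtain ⟨W, hW, hc⟩ := hcov c
    obtain ⟨i, hi⟩ := List.get_of_mem hW
    exact ⟨i, by rw [hi, hc]⟩
  have hge : numCls (m + 1) ≤ l.length := by
    have := Nat.card_le_card_of_surjective (fun i : Fin l.length => cls (l.get i)) hmem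
    simpa [numCls] using this
  have hL : 2 * (m + 1) ≤ numCls (m + 1) := by exact_mod_cast h5
  have hN : 2 * (m + 1) ≤ l.length := hL.trans hge
  obtain ⟨G, hG⟩ := realise hw hN
  have : NeZero l.length := ⟨by omega⟩
  have hlen' : (l.length : ℝ) ≤ (1 + ε) * numCls (m + 1) := by
    have : (l.length : ℝ) ≤ (numCls (m + 1) : ℝ) + 2 * m * numCls m +
        2 * m * Nat.card (Left (m + 1)) := by exact_mod_cast hlen
    linarith
  refine ⟨l.length, by omega, hlen', G, ?_, ?_⟩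
  · intro H
    obtain ⟨W, hW, hc⟩ := hcov (cls H)
    obtain ⟨i, hi⟩ := hG W hW
    exact ⟨i, by rw [hi]; exact cls_eq.mp hc⟩
  · have hs : Function.Surjective (fun i : ZMod l.length => cls (window G (m + 1) i)) := by
      intro c
      obtain ⟨W, hW, hc⟩ := hcov c
      obtain ⟨i, hi⟩ := hG W hW
      exact ⟨i, by simp only [hi]; exact hc⟩
    have h6 := once _ hs
    have h7 : Nat.card (ZMod l.length) = l.length := by simp
    rw [h7] at h6
    have h8 : (2 : ℝ) * (numCls (m + 1) : ℝ) ≤ (l.length : ℝ) +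
        (Nat.card {c : Cls (m + 1) // ∃! i : ZMod l.length, cls (window G (m + 1) i) = c} : ℝ) := by
      exact_mod_cast h6
    linarith

end Pool.Agent.H60.GU
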