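import Pool.Agent.H60.GU.WalkBasic

/-!
# NatWalk: an ordered graph on `ℕ` gives walks, and two consequences

`st m X i` is the graph induced by `X` on `i, ..., i+m-1`.  `pre (st (m+1) X i) = st m X i`,
`suf (st (m+1) X i) = st m X (i+1)` (by `ext`, `simp` and `omega`/`ring_nf` on the indices), so
`nat_walk` is an induction on `k` (generalise `i`; `List.range'_succ`).

`conn`: take `X := s.map Fin.valEmbedding ⊔ t.map (j ↦ m + j)` (or define `X.Adj a b` by
`(∃ i j, s.Adj i j ∧ a = i ∧ b = j) ∨ (∃ i j, t.Adj i j ∧ a = m + i ∧ b = m + j)`), then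
`st m X 0 = s`, `st m X m = t`, and use `nat_walk m X 0 m`.

`deck_walk`: take `X := F.comap (fun a : ℕ => (⟨a % (m+2), _⟩ : Fin (m+2)))`, `nat_walk` with
`i = 1`, `k = m+2`.  `st m X 1 = F.comap (mid m)` as `1 + j < m + 2`; `st m X (1 + (m+2))` is the
same graph since indices are read mod `m+2`.  For `v : Fin (m+2)` the window
`st (m+1) X (v+1)` has vertices `v+1, ..., v+1+m` mod `m+2`, all of `Fin (m+2)` except `v`: the map
`j ↦ (v+1+j) mod (m+2)` from `Fin (m+1)` is injective and avoids `v`, so it is `v.succAbove ∘ σ`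
for a permutation `σ` of `Fin (m+1)` (injective self-map of a finite type; `σ j` is the unique
preimage, `Fin.exists_succAbove_eq`), which gives the isomorphism.  About 150 lines.
-/

namespace Pool.Agent.H60.GU

/-- The graph induced by `X` on `i, i+1, ..., i+m-1`. -/
def st (m : ℕ) (X : SimpleGraph ℕ) (i : ℕ) : SimpleGraph (Fin m) :=
  X.comap (fun j : Fin m => i + (j : ℕ))

private theorem pre_st (m : ℕ) (X : SimpleGraph ℕ) (i : ℕ) :
    pre (st (m + 1) X i) = st m X i := by
  ext a b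
  simp [pre, st]

private theorem suf_st (m : ℕ) (X : SimpleGraph ℕ) (i : ℕ) :
    suf (st (m + 1) X i) = st m X (i + 1) := by
  ext a b
  have h : ∀ j : Fin m, i + ((j.succ : Fin (m + 1)) : ℕ) = i + 1 + (j : ℕ) := by
    intro j
    rw [Fin.val_succ]
    omega
  show X.Adj (i + ((a.succ : Fin (m + 1)) : ℕ)) (i + ((b.succ : Fin (m + 1)) : ℕ)) ↔
    X.Adj (i + 1 + (a : ℕ)) (i + 1 + (b : ℕ))
  rw [h, h]

theorem nat_walk (m : ℕ) (X : SimpleGraph ℕ) (i k : ℕ) :
    Walk (st m X i) ((List.range' i k).map (st (m + 1) X)) (st m X (i + k)) := by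
  induction k generalizing i with
  | zero => exact Walk.nil _
  | succ k ih =>
    have h1 := ih (i + 1)
    rw [← suf_st m X i] at h1
    have h2 := Walk.cons (st (m + 1) X i) _ _ h1
    rw [pre_st, show i + 1 + k = i + (k + 1) by omega] at h2
    exact h2

theorem conn {m : ℕ} (s t : SimpleGraph (Fin m)) : ∃ l, l.length = m ∧ Walk s l t := by
  set X : SimpleGraph ℕ :=
    s.map (⟨fun j : Fin m => (j : ℕ), Fin.val_injective⟩ : Fin m ↪ ℕ) ⊔
      t.map (⟨fun j : Fin m => m + (j : ℕ), fun a b h => Fin.ext (by simpa using h)⟩ :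
        Fin m ↪ ℕ) with hX
  have h0 : st m X 0 = s := by
    ext a b
    show X.Adj (0 + (a : ℕ)) (0 + (b : ℕ)) ↔ s.Adj a b
    rw [hX, SimpleGraph.sup_adj, SimpleGraph.map_adj, SimpleGraph.map_adj]
    constructor
    · rintro (⟨u, v, h, hu, hv⟩ | ⟨u, v, h, hu, hv⟩)
      · have hu' : u = a := Fin.ext (by simpa using hu)
        have hv' : v = b := Fin.ext (by simpa using hv)
        rwa [hu', hv'] at h
      · exfalso
        have h1 : m + (u : ℕ) = 0 + (a : ℕ) := hu
        have := a.isLt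
        omega
    · intro h
      exact Or.inl ⟨a, b, h, by simp, by simp⟩
  have hm : st m X (0 + m) = t := by
    ext a b
    show X.Adj (0 + m + (a : ℕ)) (0 + m + (b : ℕ)) ↔ t.Adj a b
    rw [hX, SimpleGraph.sup_adj, SimpleGraph.map_adj, SimpleGraph.map_adj]
    constructor
    · rintro (⟨u, v, h, hu, hv⟩ | ⟨u, v, h, hu, hv⟩)
      · exfalso
        have h1 : (u : ℕ) = 0 + m + (a : ℕ) := hu
        have := u.isLt
        omega
      · have h1 : m + (u : ℕ) = 0 + m + (a : ℕ) := hu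
        have h2 : m + (v : ℕ) = 0 + m + (b : ℕ) := hv
        have hu' : u = a := Fin.ext (by omega)
        have hv' : v = b := Fin.ext (by omega)
        rwa [hu', hv'] at h
    · intro h
      refine Or.inr ⟨a, b, h, ?_, ?_⟩
      · show m + (a : ℕ) = 0 + m + (a : ℕ)
        omega
      · show m + (b : ℕ) = 0 + m + (b : ℕ)
        omega
  refine ⟨(List.range' 0 m).map (st (m + 1) X), by simp, ?_⟩
  have h1 := nat_walk m X 0 m
  rwa [h0, hm] at h1

theorem deck_walk {m : ℕ} (F : SimpleGraph (Fin (m + 2))) :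
    ∃ l, l.length = m + 2 ∧ Walk (F.comap (mid m)) l (F.comap (mid m)) ∧
      ∀ v : Fin (m + 2), ∃ W ∈ l, Nonempty (W ≃g F.comap v.succAbove) := by
  set r : ℕ → Fin (m + 2) := fun a => ⟨a % (m + 2), Nat.mod_lt _ (by omega)⟩ with hr
  set X : SimpleGraph ℕ := F.comap r with hX
  have hmid : ∀ a : Fin m, r (1 + (a : ℕ)) = mid m a := by
    intro a
    apply Fin.ext
    show (1 + (a : ℕ)) % (m + 2) = ((mid m a : Fin (m + 2)) : ℕ)
    have ha := a.isLt
    rw [Nat.mod_eq_of_lt (by omega)]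
    simp [mid]
    omega
  have hmid' : ∀ a : Fin m, r (1 + (m + 2) + (a : ℕ)) = mid m a := by
    intro a
    rw [← hmid a]
    apply Fin.ext
    show (1 + (m + 2) + (a : ℕ)) % (m + 2) = (1 + (a : ℕ)) % (m + 2)
    rw [show 1 + (m + 2) + (a : ℕ) = (1 + (a : ℕ)) + (m + 2) by omega, Nat.add_mod_right]
  have h1 : st m X 1 = F.comap (mid m) := by
    ext a b
    show F.Adj (r (1 + (a : ℕ))) (r (1 + (b : ℕ))) ↔ F.Adj (mid m a) (mid m b)
    rw [hmid, hmid]
  have h2 : st m X (1 + (m + 2)) = F.comap (mid m) := by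
    ext a b
    show F.Adj (r (1 + (m + 2) + (a : ℕ))) (r (1 + (m + 2) + (b : ℕ))) ↔
      F.Adj (mid m a) (mid m b)
    rw [hmid', hmid']
  refine ⟨(List.range' 1 (m + 2)).map (st (m + 1) X), by simp, ?_, ?_⟩
  · have h3 := nat_walk m X 1 (m + 2)
    rwa [h1, h2] at h3
  · intro v
    refine ⟨st (m + 1) X ((v : ℕ) + 1), ?_, ?_⟩
    · rw [List.mem_map]
      refine ⟨(v : ℕ) + 1, ?_, rfl⟩
      rw [List.mem_range'_1]
      have := v.isLt
      omega
    · have hv := v.isLt
      have havoid : ∀ i : Fin (m + 1), r ((v : ℕ) + 1 + (i : ℕ)) ≠ v := by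
        intro i h
        have h4 : ((v : ℕ) + 1 + (i : ℕ)) % (m + 2) = (v : ℕ) := congrArg Fin.val h
        have h5 : (v : ℕ) + (1 + (i : ℕ)) ≡ (v : ℕ) + 0 [MOD m + 2] := by
          show ((v : ℕ) + (1 + (i : ℕ))) % (m + 2) = ((v : ℕ) + 0) % (m + 2)
          rw [← add_assoc, h4, add_zero, Nat.mod_eq_of_lt hv]
        have h6 := Nat.ModEq.add_left_cancel' _ h5
        have hi := i.isLt
        have h7 := Nat.ModEq.eq_of_lt_of_lt h6 (by omega) (by omega)
        omega
      have hinj : ∀ i j : Fin (m + 1), r ((v : ℕ) + 1 + (i : ℕ)) = r ((v : ℕ) + 1 + (j : ℕ)) →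
          i = j := by
        intro i j h
        have h4 : ((v : ℕ) + 1 + (i : ℕ)) % (m + 2) = ((v : ℕ) + 1 + (j : ℕ)) % (m + 2) :=
          congrArg Fin.val h
        have h5 : (v : ℕ) + 1 + (i : ℕ) ≡ (v : ℕ) + 1 + (j : ℕ) [MOD m + 2] := h4
        have h6 := Nat.ModEq.add_left_cancel' _ h5
        have hi := i.isLt
        have hj := j.isLt
        exact Fin.ext (Nat.ModEq.eq_of_lt_of_lt h6 (by omega) (by omega))
      have hex : ∀ i : Fin (m + 1), ∃ z, v.succAbove z = r ((v : ℕ) + 1 + (i : ℕ)) := fun i =>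
        Fin.exists_succAbove_eq (havoid i)
      choose σ hσ using hex
      have hσinj : Function.Injective σ := by
        intro i j h
        apply hinj
        rw [← hσ i, ← hσ j, h]
      have hσbij : Function.Bijective σ := Finite.injective_iff_bijective.1 hσinj
      refine ⟨⟨Equiv.ofBijective σ hσbij, ?_⟩⟩
      intro a b
      show F.Adj (v.succAbove (σ a)) (v.succAbove (σ b)) ↔
        F.Adj (r ((v : ℕ) + 1 + (a : ℕ))) (r ((v : ℕ) + 1 + (b : ℕ)))
      rw [hσ, hσ]

end Pool.Agent.H60.GU
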