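import Pool.Agent.H60.GU.Defs

/-!
# Realise: a closed walk of length `N ≥ 2(m+1)` is the window sequence of a graph on `ZMod N`

Let `N = l.length`, `W i` the `i`-th window (`i : ZMod N`, or `i : ℕ` read mod `N`).
1. From `Walk s l s`: `suf (W i) = pre (W (i+1))` for all `i : ZMod N`, cyclically
   (by induction: for a walk from `s` to `t`, the first window has `pre = s`, the last has
   `suf = t`, consecutive ones match).
2. Hence for `a < b ≤ m`: `(W i).Adj a b ↔ (W (i+a)).Adj 0 (b-a)` (induction on `a`: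
   `(W i).Adj (a+1) (b+1) ↔ (suf (W i)).Adj a b ↔ (pre (W (i+1))).Adj a b ↔ (W (i+1)).Adj a b`).
3. `G.Adj x y` iff `∃ d : Fin (m+1), d ≠ 0 ∧ ((y = x + d ∧ (W x).Adj 0 d) ∨
   (x = y + d ∧ (W y).Adj 0 d))`; irreflexive as `0 < d < N`.
4. `window G (m+1) i = W i`: for `a < b ≤ m`, `G.Adj (i+a) (i+b)`: the first alternative forces
   `d = b - a` (both `< N`, congruent mod `N`), the second `b - a + d ≡ 0 mod N`, impossible since
   `0 < b - a + d ≤ 2m < N`.  Use `ZMod.natCast_eq_natCast_iff` / `Nat.ModEq` and `omega`.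
About 130 lines.
-/

namespace Pool.Agent.H60.GU

private theorem walk_nil {m : ℕ} {s t : SimpleGraph (Fin m)} {l : List (SimpleGraph (Fin (m + 1)))}
    (h : Walk s l t) (hl : l = []) : s = t := by
  induction h with
  | nil s => rfl
  | cons W l t hw ih => exact absurd hl (List.cons_ne_nil _ _)

private theorem walk_get {m : ℕ} {s t : SimpleGraph (Fin m)} {l : List (SimpleGraph (Fin (m + 1)))}
    (h : Walk s l t) :
    (∀ k (hk : k + 1 < l.length), suf (l[k]'(by omega)) = pre (l[k + 1]'hk)) ∧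
    (∀ h0 : 0 < l.length, pre (l[0]'h0) = s) ∧
    (∀ h0 : 0 < l.length, suf (l[l.length - 1]'(by omega)) = t) := by
  induction h with
  | nil s =>
    refine ⟨fun k hk => ?_, fun h0 => ?_, fun h0 => ?_⟩
    · simp at hk
    · simp at h0
    · simp at h0
  | cons W l t hw ih =>
    obtain ⟨h1, h2, h3⟩ := ih
    refine ⟨fun k hk => ?_, fun h0 => rfl, fun h0 => ?_⟩
    · cases k with
      | zero =>
        simp only [List.getElem_cons_zero, List.getElem_cons_succ]
        exact (h2 (by simp at hk; omega)).symm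
      | succ k =>
        simp only [List.getElem_cons_succ]
        exact h1 k (by simp at hk; omega)
    · rcases Nat.eq_zero_or_pos l.length with h4 | h4
      · have h5 : l = [] := List.length_eq_zero_iff.1 h4
        subst h5
        exact walk_nil hw rfl
      · have h5 := h3 h4
        have h6 : (W :: l)[(W :: l).length - 1]'(by simp) = l[l.length - 1]'(by omega) := by
          rw [List.getElem_cons]
          simp only [List.length_cons, Nat.add_sub_cancel]
          rw [dif_neg (by omega)]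
        rw [h6]
        exact h5

theorem realise {m : ℕ} {s : SimpleGraph (Fin m)} {l : List (SimpleGraph (Fin (m + 1)))}
    (h : Walk s l s) (hN : 2 * (m + 1) ≤ l.length) :
    ∃ G : SimpleGraph (ZMod l.length), ∀ W ∈ l, ∃ i : ZMod l.length, window G (m + 1) i = W := by
  classical
  obtain ⟨h1, h2, h3⟩ := walk_get h
  set N := l.length with hNdef
  have hN0 : 0 < N := by omega
  have : NeZero N := ⟨by omega⟩
  let Wn : ℕ → SimpleGraph (Fin (m + 1)) := fun k => l[k % N]'(Nat.mod_lt _ hN0)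
  have step : ∀ k, suf (Wn k) = pre (Wn (k + 1)) := by
    intro k
    have hr : k % N < N := Nat.mod_lt _ hN0
    by_cases hk : k % N + 1 < N
    · have e : (k + 1) % N = k % N + 1 := by
        rw [Nat.add_mod, Nat.mod_eq_of_lt (show 1 < N by omega), Nat.mod_eq_of_lt hk]
      have := h1 (k % N) hk
      change suf (l[k % N]'_) = pre (l[(k + 1) % N]'_)
      simp only [e]
      exact this
    · have e0 : k % N = N - 1 := by omega
      have e : (k + 1) % N = 0 := by
        rw [Nat.add_mod, e0, Nat.mod_eq_of_lt (show 1 < N by omega), Nat.sub_add_cancel hN0,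
          Nat.mod_self]
      change suf (l[k % N]'_) = pre (l[(k + 1) % N]'_)
      simp only [e, e0]
      rw [h2 hN0, h3 hN0]
  have tr : ∀ (k i a b : ℕ) (ha : a + k < m + 1) (hb : b + k < m + 1),
      (Wn i).Adj ⟨a + k, ha⟩ ⟨b + k, hb⟩ ↔
        (Wn (i + k)).Adj ⟨a, by omega⟩ ⟨b, by omega⟩ := by
    intro k
    induction k with
    | zero => intro i a b ha hb; exact Iff.rfl
    | succ k ih =>
      intro i a b ha hb
      have e1 : (Wn i).Adj ⟨a + (k + 1), ha⟩ ⟨b + (k + 1), hb⟩ ↔
          (suf (Wn i)).Adj ⟨a + k, by omega⟩ ⟨b + k, by omega⟩ := Iff.rfl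
      have e2 : (pre (Wn (i + 1))).Adj ⟨a + k, by omega⟩ ⟨b + k, by omega⟩ ↔
          (Wn (i + 1)).Adj ⟨a + k, by omega⟩ ⟨b + k, by omega⟩ := Iff.rfl
      rw [e1, step, e2, ih (i + 1) a b (by omega) (by omega)]
      have e3 : i + 1 + k = i + (k + 1) := by ring
      rw [e3]
  let W' : ZMod N → SimpleGraph (Fin (m + 1)) := fun x => Wn x.val
  have hW' : ∀ k : ℕ, W' (k : ZMod N) = Wn k := by
    intro k
    change l[(k : ZMod N).val % N]'_ = l[k % N]'_
    simp only [ZMod.val_natCast, Nat.mod_mod]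
  have tr' : ∀ (i : ZMod N) (a b : ℕ) (hab : a ≤ b) (hb : b < m + 1),
      (W' i).Adj ⟨a, by omega⟩ ⟨b, hb⟩ ↔ (W' (i + (a : ZMod N))).Adj 0 ⟨b - a, by omega⟩ := by
    intro i a b hab hb
    have e := tr a i.val 0 (b - a) (by omega) (by omega)
    have e1 : W' (i + (a : ZMod N)) = Wn (i.val + a) := by
      rw [← hW']
      congr 1
      push_cast
      rw [ZMod.natCast_zmod_val]
    rw [e1]
    have e2 : (⟨0 + a, by omega⟩ : Fin (m + 1)) = ⟨a, by omega⟩ := by
      ext; simp
    have e3 : (⟨b - a + a, by omega⟩ : Fin (m + 1)) = ⟨b, hb⟩ := by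
      ext; simp only; omega
    rw [e2, e3] at e
    exact e
  let E : ZMod N → ℕ → Prop := fun x d => ∃ hd : d < m + 1, 0 < d ∧ (W' x).Adj 0 ⟨d, hd⟩
  have cast_inj : ∀ a b : ℕ, a < N → b < N → (a : ZMod N) = (b : ZMod N) → a = b := by
    intro a b ha hb e
    rw [ZMod.natCast_eq_natCast_iff'] at e
    rwa [Nat.mod_eq_of_lt ha, Nat.mod_eq_of_lt hb] at e
  let G : SimpleGraph (ZMod N) := SimpleGraph.fromRel fun x y => ∃ d : ℕ, y = x + (d : ZMod N) ∧ E x d
  have hG : ∀ x y, G.Adj x y ↔ (∃ d : ℕ, y = x + (d : ZMod N) ∧ E x d) ∨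
      (∃ d : ℕ, x = y + (d : ZMod N) ∧ E y d) := by
    intro x y
    rw [SimpleGraph.fromRel_adj]
    constructor
    · exact fun h => h.2
    · intro h
      refine ⟨?_, h⟩
      rintro rfl
      have : ∃ d : ℕ, x = x + (d : ZMod N) ∧ E x d := by
        rcases h with h | h <;> exact h
      obtain ⟨d, hd, hd1, hd2, -⟩ := this
      have h4 : ((d : ℕ) : ZMod N) = ((0 : ℕ) : ZMod N) := by
        have := left_eq_add.1 hd
        simpa using this
      have := cast_inj d 0 (by omega) hN0 h4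
      omega
  have key : ∀ (i : ZMod N) (a b : ℕ) (hab : a < b) (hb : b < m + 1),
      G.Adj (i + (a : ZMod N)) (i + (b : ZMod N)) ↔ (W' i).Adj ⟨a, by omega⟩ ⟨b, hb⟩ := by
    intro i a b hab hb
    rw [tr' i a b hab.le hb, hG]
    constructor
    · rintro (⟨d, hd, hd1, hd2, hd3⟩ | ⟨d, hd, hd1, hd2, hd3⟩)
      · rw [add_assoc, add_right_inj] at hd
        have h4 : ((b : ℕ) : ZMod N) = ((a + d : ℕ) : ZMod N) := by push_cast; exact hd
        have h5 := cast_inj _ _ (by omega) (by omega) h4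
        have h6 : (⟨b - a, by omega⟩ : Fin (m + 1)) = ⟨d, hd1⟩ := by
          ext; simp only; omega
        rw [h6]
        exact hd3
      · rw [add_assoc, add_right_inj] at hd
        have h4 : ((a : ℕ) : ZMod N) = ((b + d : ℕ) : ZMod N) := by push_cast; exact hd
        have h5 := cast_inj _ _ (by omega) (by omega) h4
        omega
    · intro h4
      refine Or.inl ⟨b - a, ?_, by omega, by omega, h4⟩
      rw [add_assoc, ← Nat.cast_add]
      congr 2
      omega
  refine ⟨G, fun W hW => ?_⟩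
  obtain ⟨k, hk, rfl⟩ := List.mem_iff_getElem.1 hW
  refine ⟨(k : ZMod N), ?_⟩
  have h4 : W' (k : ZMod N) = l[k] := by
    rw [hW']
    change l[k % N]'_ = l[k]
    simp only [Nat.mod_eq_of_lt (show k < N from hk)]
  rw [← h4]
  ext a b
  obtain ⟨a, ha⟩ := a
  obtain ⟨b, hb⟩ := b
  change G.Adj (_ + ((a : ℕ) : ZMod N)) (_ + ((b : ℕ) : ZMod N)) ↔ _
  rcases lt_trichotomy a b with hab | hab | hab
  · exact key _ a b hab hb
  · subst hab
    simp
  · rw [SimpleGraph.adj_comm, SimpleGraph.adj_comm (W' _)]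
    exact key _ b a hab ha

end Pool.Agent.H60.GU
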