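import Pool.Agent.H60.GU.Defs

/-!
# WalkBasic: walks can be appended; closed walks at the same state can be concatenated

* `Walk.append`: induction on the first walk.
* `Walk.concat`: for a finite type `ι` (use `Fintype.equivFin` or `Finset.induction_on` for
  `Finset.univ`, with the statement for a `Finset S`: there is a closed walk of length
  `∑ i ∈ S, (L i).length` containing every element of `L i`, `i ∈ S`).
About 50 lines.
-/

namespace Pool.Agent.H60.GU

variable {m : ℕ}

theorem Walk.append {s t u : SimpleGraph (Fin m)} {l l' : List (SimpleGraph (Fin (m + 1)))}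
    (h : Walk s l t) (h' : Walk t l' u) : Walk s (l ++ l') u := by
  induction h with
  | nil s => exact h'
  | cons W l t _ ih => exact Walk.cons W (l ++ l') u (ih h')

theorem Walk.single (W : SimpleGraph (Fin (m + 1))) : Walk (pre W) [W] (suf W) := by
  exact Walk.cons W [] (suf W) (Walk.nil _)

theorem Walk.concat {s : SimpleGraph (Fin m)} {ι : Type} [Fintype ι]
    (L : ι → List (SimpleGraph (Fin (m + 1)))) (h : ∀ i, Walk s (L i) s) :
    ∃ l, Walk s l s ∧ (∀ i, ∀ W ∈ L i, W ∈ l) ∧ l.length = ∑ i, (L i).length := by
  classical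
  have key : ∀ S : Finset ι, ∃ l, Walk s l s ∧ (∀ i ∈ S, ∀ W ∈ L i, W ∈ l) ∧
      l.length = ∑ i ∈ S, (L i).length := by
    intro S
    induction S using Finset.induction_on with
    | empty => exact ⟨[], Walk.nil s, by simp, by simp⟩
    | insert a S ha ih =>
      obtain ⟨l, h1, h2, h3⟩ := ih
      refine ⟨L a ++ l, (h a).append h1, ?_, ?_⟩
      · intro i hi W hW
        rw [List.mem_append]
        rcases Finset.mem_insert.1 hi with hi | hi
        · subst hi
          exact Or.inl hW
        · exact Or.inr (h2 i hi W hW)
      · rw [List.length_append, Finset.sum_insert ha, h3]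
  obtain ⟨l, h1, h2, h3⟩ := key Finset.univ
  exact ⟨l, h1, fun i W hW => h2 i (Finset.mem_univ i) W hW, h3⟩

end Pool.Agent.H60.GU
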